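import Pool.Agent.Helper48.LB.Two

/-!
# Exact values
-/

namespace Pool.Agent.Helper48.LB

open Finset Pool.Agent.Helper48.HX

/-- The component of `v` in the class of `α` is complete or complete bipartite. -/
def TwoType {V C : Type} (G : SimpleGraph V) (L : V → Finset C) (v : V) (α : C) : Prop :=
  ∃ K : Set V, v ∈ K ∧ (∀ u ∈ K, α ∈ L u) ∧ (∀ u ∈ K, ∀ w, G.Adj u w → α ∈ L w → w ∈ K) ∧
    ((∀ u ∈ K, ∀ w ∈ K, u ≠ w → G.Adj u w) ∨
      ∃ A : Set V, ∀ u ∈ K, ∀ w ∈ K, (G.Adj u w ↔ ¬ (u ∈ A ↔ w ∈ A)))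

/-- Lists of size at least `k` suffice whenever the maximum colour degree is at most `d` and every
component of every colour class is complete or complete bipartite. -/
def SufficesK (d k : ℕ) : Prop :=
  ∀ (V C : Type) [Fintype V] (G : SimpleGraph V) (L : V → Finset C),
    ColourDegreeLE G L d → (∀ v, k ≤ (L v).card) →
    (∀ v, ∀ α ∈ L v, TwoType G L v α) → ListColourable G L

/-- The least sufficient size. -/
noncomputable def fK (d : ℕ) : ℕ := sInf {k | SufficesK d k}

theorem neat_of_complete {V C : Type} [Fintype V] {G : SimpleGraph V} {L : V → Finset C}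
    {r d : ℕ} (hr : 0 < r) (hdeg : ColourDegreeLE G L d) {v : V} {α : C} (K : Set V) (hv : v ∈ K)
    (hKL : ∀ u ∈ K, α ∈ L u) (hK : ∀ u ∈ K, ∀ w, G.Adj u w → α ∈ L w → w ∈ K)
    (hc : ∀ u ∈ K, ∀ w ∈ K, u ≠ w → G.Adj u w) : Neat G L r d v α := by
  refine neat_of_chordal hr hdeg K hv hKL hK ?_ ?_
  · rintro W hW ⟨x, hx⟩
    exact ⟨x, hx, fun y hy z hz _ _ hne => hc y (hW hy) z (hW hz) hne⟩
  · intro y _ I hI hind
    refine le_trans (Finset.card_le_one.2 fun u hu w hw => ?_) hr
    by_contra hne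
    exact hind u hu w hw (hc u (hI u hu).1 w (hI w hw).1 hne)

theorem light_or_neat {V C : Type} [Fintype V] {G : SimpleGraph V} {L : V → Finset C}
    {r S B d : ℕ} (hr : 0 < r) (hS : 2 ≤ S) (hB : 2 * d ≤ B) (hdeg : ColourDegreeLE G L d)
    {v : V} {α : C} (h : TwoType G L v α) : Light G L S B v α ∨ Neat G L r d v α := by
  classical
  obtain ⟨K, hv, hKL, hK, h | ⟨A, hA⟩⟩ := h
  · exact Or.inr (neat_of_complete hr hdeg K hv hKL hK h)
  · by_cases h1 : ∃ a ∈ K, a ∈ A
    · by_cases h2 : ∃ b ∈ K, b ∉ A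
      · left
        obtain ⟨a, haK, haA⟩ := h1
        obtain ⟨b, hbK, hbA⟩ := h2
        refine ⟨K, hv, hKL, hK, ?_, fun u => if u ∈ A then ⟨0, by omega⟩ else ⟨1, by omega⟩, ?_⟩
        · have h3 : K ⊆ {w | G.Adj b w ∧ α ∈ L w} ∪ {w | G.Adj a w ∧ α ∈ L w} := by
            intro u hu
            by_cases hu' : u ∈ A
            · exact Or.inl ⟨(hA b hbK u hu).2 (by tauto), hKL u hu⟩
            · exact Or.inr ⟨(hA a haK u hu).2 (by tauto), hKL u hu⟩
          have h4 := hdeg a α (hKL a haK)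
          have h5 := hdeg b α (hKL b hbK)
          have h6 := (Set.ncard_le_ncard h3 (Set.toFinite _)).trans (Set.ncard_union_le _ _)
          omega
        · intro u hu w hw huw
          have h3 := (hA u hu w hw).1 huw
          beta_reduce
          by_cases hu' : u ∈ A
          · have hw' : w ∉ A := fun h => h3 ⟨fun _ => h, fun _ => hu'⟩
            rw [if_pos hu', if_neg hw']
            simp
          · have hw' : w ∈ A := by
              by_contra h
              exact h3 ⟨fun h' => absurd h' hu', fun h' => absurd h' h⟩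
            rw [if_neg hu', if_pos hw']
            simp
      · right
        push Not at h2
        refine neat_of_complete hr hdeg {v} rfl (fun u hu => by rw [hu]; exact hKL v hv) ?_ ?_
        · intro u hu w huw hw
          rw [Set.mem_singleton_iff] at hu
          subst hu
          have hwK := hK u hv w huw hw
          exact absurd ⟨fun _ => h2 w hwK, fun _ => h2 u hv⟩ ((hA u hv w hwK).1 huw)
        · intro u hu w hw hne
          exact absurd (hu.trans hw.symm) hne
    · right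
      push Not at h1
      refine neat_of_complete hr hdeg {v} rfl (fun u hu => by rw [hu]; exact hKL v hv) ?_ ?_
      · intro u hu w huw hw
        rw [Set.mem_singleton_iff] at hu
        subst hu
        have hwK := hK u hv w huw hw
        exact absurd ⟨fun h => absurd h (h1 u hv), fun h => absurd h (h1 w hwK)⟩
          ((hA u hv w hwK).1 huw)
      · intro u hu w hw hne
        exact absurd (hu.trans hw.symm) hne

theorem sufficesK_of_sufficesM {r S B d k : ℕ} (hr : 0 < r) (hS : 2 ≤ S) (hB : 2 * d ≤ B)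
    (h : SufficesM r S B d k) : SufficesK d k := by
  intro V C _ G L h1 h2 h3
  refine h V C G L h1 fun v => (h2 v).trans ?_
  rw [← Set.ncard_coe_finset]
  refine Set.ncard_le_ncard ?_ ((L v).finite_toSet.subset fun α hα => hα.1)
  intro α hα
  exact ⟨hα, light_or_neat hr hS hB h1 (h3 v α hα)⟩

theorem not_sufficesK {d : ℕ} (hd : 3 ≤ d) : ¬ SufficesK d (d + 1) := by
  intro h
  refine Two.not_colourable (by omega) (h (Two.Vx d) Two.Col (Two.gr d) (Two.lst d)
    (Two.degree_lst hd) (fun v => (Two.card_lst d v).ge) ?_)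
  intro v α hα
  refine ⟨{w | α ∈ Two.lst d w}, hα, fun u hu => hu, fun u _ w _ hw => hw, ?_⟩
  rcases Two.complete_or α with h1 | ⟨x, rfl⟩
  · exact Or.inl fun u hu w hw hne => h1 u w hu hw hne
  · right
    refine ⟨{w | w.2.1 = true}, fun u hu w hw => ?_⟩
    rw [Two.adj_var (Two.mem_inr.1 hu) (Two.mem_inr.1 hw)]
    simp only [Set.mem_setOf_eq]
    cases u.2.1 <;> cases w.2.1 <;> simp

theorem suffices_two_mul {d : ℕ} (hd : 1 ≤ d) : Suffices d (2 * d) := by
  classical
  intro V C _ G L hdeg hk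
  refine weighted G L (fun _ _ => 2 * d) ?_ ?_
  · intro α x y v hxy hx hy hv hxyv
    have hsub : {w | α ∈ L w ∧ (G.Adj x w ∨ G.Adj y w)} ⊆
        {w | G.Adj x w ∧ α ∈ L w} ∪ {w | G.Adj y w ∧ α ∈ L w} := by
      rintro w ⟨hw, h1 | h1⟩
      · exact Or.inl ⟨h1, hw⟩
      · exact Or.inr ⟨h1, hw⟩
    refine (Set.ncard_le_ncard hsub (Set.toFinite _)).trans ?_
    refine (Set.ncard_union_le _ _).trans ?_
    have h1 := hdeg x α hx
    have h2 := hdeg y α hy
    omega
  · intro v
    rw [Finset.sum_const, nsmul_eq_mul, mul_one_div]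
    have h0 : (0 : ℚ) < ((2 * d : ℕ) : ℚ) := by exact_mod_cast (by omega : 0 < 2 * d)
    rw [le_div_iff₀ h0, one_mul]
    exact_mod_cast hk v

theorem le_fK {d : ℕ} (hd : 3 ≤ d) : d + 2 ≤ fK d := by
  have h1 : SufficesK d (fK d) := Nat.sInf_mem (s := {k | SufficesK d k})
    ⟨2 * d, fun V C _ G L h2 h3 _ => suffices_two_mul (by omega) V C G L h2 h3⟩
  by_contra hcon
  exact not_sufficesK hd fun V C _ G L h2 h3 h4 =>
    h1 V C G L h2 (fun v => le_trans (by omega) (h3 v)) h4

theorem le_fM {r S B d : ℕ} (hr : 0 < r) (hS : 2 ≤ S) (hB : 2 * d ≤ B) (hd : 3 ≤ d) :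
    d + 2 ≤ fM r S B d := by
  have h1 : SufficesM r S B d (fM r S B d) := Nat.sInf_mem (s := {k | SufficesM r S B d k})
    ⟨2 * d, fun V C _ G L h2 h3 => suffices_two_mul (by omega) V C G L h2 fun v => by
      refine (h3 v).trans ?_
      rw [← Set.ncard_coe_finset]
      exact Set.ncard_le_ncard (fun α hα => hα.1) (L v).finite_toSet⟩
  have h2 := sufficesK_of_sufficesM hr hS hB h1
  by_contra hcon
  exact not_sufficesK hd fun V C _ G L h3 h4 h5 =>
    h2 V C G L h3 (fun v => le_trans (by omega) (h4 v)) h5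

theorem three_le_of_log {S r B d : ℕ} (hS : 2 ≤ S) (hr : 0 < r) (hB : 0 < B)
    (h : 4 * r * S * Real.log (8 * B * (d + 2) ^ 5) ≤ d + 2) : 3 ≤ d := by
  have hSr : (2 : ℝ) ≤ S := by exact_mod_cast hS
  have hrr : (1 : ℝ) ≤ r := by exact_mod_cast hr
  have hΛ := log_ge (d := d) hB
  have h1 : (2 : ℝ) ≤ r * S := by nlinarith
  have h2 : (8 : ℝ) ≤ 4 * r * S := by nlinarith
  have h3 : (40 : ℝ) ≤ 4 * r * S * Real.log (8 * B * (d + 2) ^ 5) := by nlinarith
  have h4 : (3 : ℝ) ≤ d := by linarith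
  exact_mod_cast h4

theorem fM_eq {S r B d : ℕ} (hS : 2 ≤ S) (hr : 0 < r) (hB : 2 * d ≤ B) (hd : 0 < d)
    (h : 4 * r * S * Real.log (8 * B * (d + 2) ^ 5) ≤ d + 2) : fM r S B d = d + 2 := by
  have hB0 : 0 < B := by omega
  have hd := three_le_of_log hS hr hB0 h
  exact le_antisymm (Nat.sInf_le (suffices_of_log (by omega) hr hB0 h)) (le_fM hr hS hB hd)

theorem log_bound {d : ℕ} (hd : 300 ≤ d) :
    4 * (1 : ℕ) * ((2 : ℕ) : ℝ) * Real.log (8 * ((2 * d : ℕ) : ℝ) * (d + 2) ^ 5) ≤ d + 2 := by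
  have hdr : (300 : ℝ) ≤ d := by exact_mod_cast hd
  set x : ℝ := (d : ℝ) + 2 with hx
  have hx0 : (302 : ℝ) ≤ x := by linarith
  have h1 : 8 * ((2 * d : ℕ) : ℝ) * x ^ 5 ≤ 16 * x ^ 6 := by
    push_cast
    have h2 : (d : ℝ) ≤ x := by linarith
    have h3 : (0 : ℝ) ≤ x ^ 5 := by positivity
    nlinarith
  have h2 : Real.log (8 * ((2 * d : ℕ) : ℝ) * x ^ 5) ≤ 4 * Real.log 2 + 6 * Real.log x := by
    have h3 : (0 : ℝ) < 8 * ((2 * d : ℕ) : ℝ) * x ^ 5 := by
      push_cast
      positivity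
    refine (Real.log_le_log h3 h1).trans (le_of_eq ?_)
    rw [Real.log_mul (by norm_num) (by positivity), Real.log_pow,
      show (16 : ℝ) = 2 ^ 4 by norm_num, Real.log_pow]
    norm_num
  have h3 : Real.log x ≤ Real.log 302 + (x / 302 - 1) := by
    have h4 : x = 302 * (x / 302) := by ring
    have h5 : (0 : ℝ) < x / 302 := by positivity
    rw [h4, Real.log_mul (by norm_num) h5.ne', ← h4]
    have := Real.log_le_sub_one_of_pos h5
    linarith
  have h4 : 4 * Real.log 302 ≤ 33 * Real.log 2 := by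
    have h5 : Real.log ((302 : ℝ) ^ 4) ≤ Real.log (2 ^ 33) :=
      Real.log_le_log (by norm_num) (by norm_num)
    rw [Real.log_pow, Real.log_pow] at h5
    push_cast at h5
    exact h5
  have h5 := Real.log_two_lt_d9
  push_cast at h2 ⊢
  linarith

theorem fK_eq {d : ℕ} (hd : 300 ≤ d) : fK d = d + 2 := by
  refine le_antisymm (Nat.sInf_le ?_) (le_fK (by omega))
  exact sufficesK_of_sufficesM (r := 1) (S := 2) (B := 2 * d) one_pos le_rfl le_rfl
    (suffices_of_log (by norm_num) one_pos (by omega) (log_bound hd))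

end Pool.Agent.Helper48.LB
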