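import Pool.Agent.Helper48.TH.Lists

/-!
# Colour classes with chordal components and components of small chromatic number
-/

namespace Pool.Agent.Helper48.LB

open Finset Pool.Agent.Helper48.HX Pool.Agent.Helper48.TH

/-- The colour `α` is light at `v`: `v` is in a set `K` of at most `B` vertices with the colour
`α`, closed under adjacency in the colour class, with a proper `S`-colouring. -/
def Light {V C : Type} (G : SimpleGraph V) (L : V → Finset C) (S B : ℕ) (v : V) (α : C) : Prop :=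
  ∃ K : Set V, v ∈ K ∧ (∀ u ∈ K, α ∈ L u) ∧ (∀ u ∈ K, ∀ w, G.Adj u w → α ∈ L w → w ∈ K) ∧
    K.ncard ≤ B ∧ ∃ c : V → Fin S, ∀ u ∈ K, ∀ w ∈ K, G.Adj u w → c u ≠ c w

/-- The colour `α` is neat at `v`: `v` is in a set `K` of vertices with the colour `α`, closed
under adjacency in the colour class, and there are sets `E x y` of at most `d + 1` vertices,
containing no `r + 1` pairwise nonadjacent ones, such that every nonempty `W ⊆ K` has a vertex `x`
whose neighbours in `W` can be enumerated such that, for every tail `y :: t` of the enumeration,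
the vertices of `W` in the tail or adjacent to `y` are in `E x y`. -/
def Neat {V C : Type} (G : SimpleGraph V) (L : V → Finset C) (r d : ℕ) (v : V) (α : C) : Prop :=
  ∃ K : Set V, v ∈ K ∧ (∀ u ∈ K, α ∈ L u) ∧ (∀ u ∈ K, ∀ w, G.Adj u w → α ∈ L w → w ∈ K) ∧
    ∃ E : V → V → Set V,
      (∀ x y, (E x y).ncard ≤ d + 1 ∧ ∀ I : Finset V, (∀ u ∈ I, u ∈ E x y) →
        (∀ u ∈ I, ∀ w ∈ I, ¬ G.Adj u w) → I.card ≤ r) ∧
      ∀ W : Set V, W ⊆ K → W.Nonempty → ∃ x ∈ W, ∃ l : List V, l.Nodup ∧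
        (∀ y, y ∈ l ↔ y ∈ W ∧ G.Adj x y) ∧
        ∀ y t, (y :: t) <:+ l → {u | u ∈ W ∧ (u ∈ y :: t ∨ G.Adj y u)} ⊆ E x y

/-- The extra demand of a vertex with `m` light colours. -/
noncomputable def dem (k m : ℕ) : ℝ := if 2 * m < k then (m : ℝ) / ((k : ℝ) - m) else 0

/-- The weights in an explosion set. -/
theorem weight_le {V : Type} {N : Finset V} {m : V → ℕ} {cov : V → Prop} [DecidablePred cov]
    {k : ℕ} (hk : 1 ≤ k) (hN : N.card + 1 ≤ k) (hm : ∀ u, ¬ cov u → 2 * m u < k)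
    (hsur : ∑ u ∈ N, (if cov u then (-1 : ℝ) else dem k (m u)) ≤ 1)
    (T : Finset V) (hT : ∀ u ∈ T, u ∈ N ∧ ¬ cov u) :
    ∑ u ∈ T, 1 / ((k - m u : ℕ) : ℚ) ≤ 1 := by
  classical
  have hkr : (0 : ℝ) < k := by exact_mod_cast hk
  have h1 : ∀ u, ¬ cov u → (0 : ℝ) < (k : ℝ) - m u := by
    intro u hu
    have h2 := hm u hu
    have h3 : ((2 * m u : ℕ) : ℝ) < k := by exact_mod_cast h2
    push_cast at h3
    have h4 : (0 : ℝ) ≤ m u := Nat.cast_nonneg _
    linarith
  have h2 : ∑ u ∈ T, (1 + dem k (m u)) ≤ k := by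
    have h3 : ∑ u ∈ T, (1 + dem k (m u)) ≤
        ∑ u ∈ N, (1 + if cov u then (-1 : ℝ) else dem k (m u)) := by
      refine (Finset.sum_le_sum fun u hu => ?_).trans
        (Finset.sum_le_sum_of_subset_of_nonneg (fun u hu => (hT u hu).1) fun u _ _ => ?_)
      · rw [if_neg (hT u hu).2]
      · by_cases hu : cov u
        · rw [if_pos hu]
          norm_num
        · rw [if_neg hu]
          unfold dem
          split_ifs
          · have := h1 u hu
            positivity
          · norm_num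
    refine h3.trans ?_
    rw [Finset.sum_add_distrib, Finset.sum_const, nsmul_eq_mul, mul_one]
    have h4 : ((N.card : ℕ) : ℝ) + 1 ≤ k := by exact_mod_cast hN
    linarith
  have h3 : (∑ u ∈ T, 1 / ((k : ℝ) - m u)) * k = ∑ u ∈ T, (1 + dem k (m u)) := by
    rw [Finset.sum_mul]
    refine Finset.sum_congr rfl fun u hu => ?_
    have h4 := h1 u (hT u hu).2
    unfold dem
    rw [if_pos (hm u (hT u hu).2)]
    field_simp
    ring
  have h4 : ∑ u ∈ T, 1 / ((k : ℝ) - m u) ≤ 1 := by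
    have h5 : (∑ u ∈ T, 1 / ((k : ℝ) - m u)) * k ≤ 1 * k := by
      rw [h3, one_mul]
      exact h2
    exact le_of_mul_le_mul_right h5 hkr
  have h5 : ((∑ u ∈ T, 1 / ((k - m u : ℕ) : ℚ) : ℚ) : ℝ) ≤ ((1 : ℚ) : ℝ) := by
    push_cast
    refine le_trans (le_of_eq (Finset.sum_congr rfl fun u hu => ?_)) h4
    have h6 := hm u (hT u hu).2
    rw [Nat.cast_sub (by omega)]
  exact_mod_cast h5

/-- The covered vertices are coloured with light colours, the others with neat ones. -/
theorem colourable_of_cov {V C : Type} [Fintype V] {G : SimpleGraph V} {L : V → Finset C}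
    {d : ℕ} (hcard : ∀ v, (L v).card = d + 2) (lt : V → Finset C) (hlt : ∀ v, lt v ⊆ L v)
    (hcl : ∀ u w α, G.Adj u w → α ∈ L w → α ∈ lt u → α ∈ lt w)
    (g : V → C) (cov : V → Prop) [DecidablePred cov] (hg : ∀ v, cov v → g v ∈ lt v)
    (hgp : ∀ u w, cov u → cov w → G.Adj u w → g u ≠ g w)
    (hm : ∀ v, ¬ cov v → 2 * (lt v).card < d + 2)
    (hneat : ∀ v, ∀ α ∈ L v, α ∉ lt v → ∃ K : Set V, v ∈ K ∧ (∀ u ∈ K, α ∈ L u) ∧
      (∀ u ∈ K, ∀ w, G.Adj u w → α ∈ L w → w ∈ K) ∧ ∃ E : V → V → Finset V,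
      (∀ x ∈ K, ∀ y ∈ K, G.Adj x y → (E x y).card ≤ d + 1 ∧
        ∑ u ∈ E x y, (if cov u then (-1 : ℝ) else dem (d + 2) (lt u).card) ≤ 1) ∧
      ∀ W : Set V, W ⊆ K → W.Nonempty → ∃ x ∈ W, ∃ l : List V, l.Nodup ∧
        (∀ y, y ∈ l ↔ y ∈ W ∧ G.Adj x y) ∧
        ∀ y t, (y :: t) <:+ l → ∀ u ∈ W, (u ∈ y :: t ∨ G.Adj y u) → u ∈ E x y) :
    ListColourable G L := by
  classical
  have hlcard : ∀ v, (L v \ lt v).card = d + 2 - (lt v).card := fun v => by
    rw [Finset.card_sdiff_of_subset (hlt v), hcard]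
  obtain ⟨c, hc1, hc2⟩ := colourable_of_elim (V := {v // ¬ cov v})
    (G.comap Subtype.val) (fun v => L v.1 \ lt v.1)
    (fun v _ => 1 / ((d + 2 - (lt v.1).card : ℕ) : ℚ)) (fun v α => by positivity) (by
      intro α W hWL hWne
      obtain ⟨v0, hv0⟩ := hWne
      have hv0L := Finset.mem_sdiff.1 (hWL v0 hv0)
      obtain ⟨K, hv0K, hKL, hKcl, E, hE, hKs⟩ := hneat v0.1 α hv0L.1 hv0L.2
      obtain ⟨x, ⟨hxK, x', hx', rfl⟩, l, hlnd, hl, hlE⟩ := hKs
        {u | u ∈ K ∧ ∃ v ∈ W, v.1 = u} (fun u hu => hu.1) ⟨v0.1, hv0K, v0, hv0, rfl⟩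
      have hlc : ∀ y ∈ l, ¬ cov y := by
        intro y hy
        obtain ⟨⟨-, v, -, rfl⟩, -⟩ := (hl y).1 hy
        exact v.2
      refine ⟨x', hx', l.attach.map fun y => ⟨y.1, hlc y.1 y.2⟩, ?_, ?_, ?_⟩
      · refine List.Nodup.map ?_ (List.nodup_attach.2 hlnd)
        intro y y' h
        have h3 : y.1 = y'.1 := congrArg (fun z : {v // ¬ cov v} => z.1) h
        exact Subtype.ext h3
      · intro y
        rw [List.mem_map]
        constructor
        · rintro ⟨z, -, rfl⟩
          obtain ⟨⟨-, v, hv, hvz⟩, h3⟩ := (hl z.1).1 z.2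
          have h4 : v = ⟨z.1, hlc z.1 z.2⟩ := Subtype.ext hvz
          exact ⟨h4 ▸ hv, h3⟩
        · rintro ⟨hy, hadj⟩
          have hadj' : G.Adj x'.1 y.1 := hadj
          have h3 : y.1 ∈ l := (hl y.1).2
            ⟨⟨hKcl _ hxK _ hadj' (Finset.mem_sdiff.1 (hWL y hy)).1, y, hy, rfl⟩, hadj'⟩
          exact ⟨⟨y.1, h3⟩, List.mem_attach _ _, rfl⟩
      · intro y t hyt T hTW hT
        have hyt' : (y.1 :: t.map Subtype.val) <:+ l := by
          have h3 := List.IsSuffix.map Subtype.val hyt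
          rw [List.map_map] at h3
          have h4 : (l.attach.map (Subtype.val ∘ fun y => (⟨y.1, hlc y.1 y.2⟩ : {v // ¬ cov v})))
              = l := by
            have h5 : (Subtype.val ∘ fun y : {x // x ∈ l} =>
                (⟨y.1, hlc y.1 y.2⟩ : {v // ¬ cov v})) = Subtype.val := rfl
            rw [h5, List.attach_map_subtype_val]
          rw [h4, List.map_cons] at h3
          exact h3
        have hyl : y.1 ∈ l := hyt'.subset (by simp)
        obtain ⟨⟨hyK, -⟩, hadj⟩ := (hl y.1).1 hyl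
        obtain ⟨hEc, hQ⟩ := hE x'.1 hxK y.1 hyK hadj
        have hTE : ∀ u ∈ T, u.1 ∈ E x'.1 y.1 := by
          intro u hu
          have h3 : u.1 ∈ y.1 :: t.map Subtype.val ∨ G.Adj y.1 u.1 := by
            rcases hT u hu with h4 | h4
            · left
              have h5 : u.1 ∈ (y :: t).map Subtype.val := List.mem_map.2 ⟨u, h4, rfl⟩
              rwa [List.map_cons] at h5
            · exact Or.inr h4
          refine hlE y.1 _ hyt' u.1 ⟨?_, u, hTW hu, rfl⟩ h3
          rcases h3 with h4 | h4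
          · exact ((hl u.1).1 (hyt'.subset h4)).1.1
          · exact hKcl _ hyK _ h4 (Finset.mem_sdiff.1 (hWL u (hTW hu))).1
        have h3 := weight_le (N := E x'.1 y.1)
          (m := fun u => (lt u).card) (cov := cov) (k := d + 2)
          (by omega) (by omega) hm hQ
          (T.image Subtype.val) (by
            intro u hu
            obtain ⟨v, hv, rfl⟩ := Finset.mem_image.1 hu
            exact ⟨hTE v hv, v.2⟩)
        rw [Finset.sum_image (fun u _ w _ h => Subtype.ext h)] at h3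
        exact h3) (by
      intro v
      rw [Finset.sum_const, hlcard, nsmul_eq_mul, mul_one_div]
      have h3 := hm v.1 v.2
      rw [div_self]
      have : 0 < d + 2 - (lt v.1).card := by omega
      exact_mod_cast this.ne')
  refine ⟨fun v => if h : cov v then g v else c ⟨v, h⟩, fun v => ?_, fun u w huw => ?_⟩
  · by_cases h : cov v
    · simp only [dif_pos h]
      exact hlt v (hg v h)
    · simp only [dif_neg h]
      exact (Finset.mem_sdiff.1 (hc1 ⟨v, h⟩)).1
  · by_cases h : cov u <;> by_cases h' : cov w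
    · simp only [dif_pos h, dif_pos h']
      exact hgp u w h h' huw
    · simp only [dif_pos h, dif_neg h']
      intro heq
      have h3 := Finset.mem_sdiff.1 (hc1 ⟨w, h'⟩)
      rw [← heq] at h3
      exact h3.2 (hcl u w _ huw h3.1 (hg u h))
    · simp only [dif_neg h, dif_pos h']
      intro heq
      have h3 := Finset.mem_sdiff.1 (hc1 ⟨u, h⟩)
      rw [heq] at h3
      exact h3.2 (hcl w u _ huw.symm h3.1 (hg w h'))
    · simp only [dif_neg h, dif_neg h']
      exact hc2 ⟨u, h⟩ ⟨w, h'⟩ huw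

end Pool.Agent.Helper48.LB
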