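import Pool.Agent.Helper48.LB.Prob
import Pool.Agent.Helper48.LB.Finish

/-!
# The local lemma for the choice of the light colours
-/

namespace Pool.Agent.Helper48.LB

open Finset Pool.Agent.Helper48.HX Pool.Agent.Helper96.NB Pool.Agent.Helper96.NB.PW

section Comp

variable {V C : Type} (G : SimpleGraph V) (L : V → Finset C)

/-- The colour class of `α` as a graph. -/
def cls (α : C) : SimpleGraph V where
  Adj u w := G.Adj u w ∧ α ∈ L u ∧ α ∈ L w
  symm := ⟨fun _ _ h => ⟨h.1.symm, h.2.2, h.2.1⟩⟩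
  loopless := ⟨fun _ h => G.loopless.irrefl _ h.1⟩

/-- A representative of the component of `v` in the colour class of `α`. -/
noncomputable def rep (v : V) (α : C) : V := ((cls G L α).connectedComponentMk v).out

variable {G L}

theorem mem_of_reach {α : C} {K : Set V} (hK : ∀ u ∈ K, ∀ w, G.Adj u w → α ∈ L w → w ∈ K)
    {u w : V} (h : (cls G L α).Reachable u w) (hu : u ∈ K) : w ∈ K := by
  obtain ⟨p⟩ := h
  induction p with
  | nil => exact hu
  | cons hadj _ ih => exact ih (hK _ hu _ hadj.1 hadj.2.2)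

theorem rep_reach (v : V) (α : C) : (cls G L α).Reachable (rep G L v α) v :=
  SimpleGraph.ConnectedComponent.exact (Quot.out_eq _)

theorem rep_eq {u w : V} {α : C} (h : (cls G L α).Reachable u w) :
    rep G L u α = rep G L w α := by
  unfold rep
  rw [SimpleGraph.ConnectedComponent.sound h]

theorem light_reach {S B : ℕ} {u w : V} {α : C} (h : (cls G L α).Reachable u w)
    (hu : Light G L S B u α) : Light G L S B w α := by
  obtain ⟨K, h1, h2, h3, h4, h5⟩ := hu
  exact ⟨K, mem_of_reach h3 h h1, h2, h3, h4, h5⟩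

theorem neat_reach {r d : ℕ} {u w : V} {α : C} (h : (cls G L α).Reachable u w)
    (hu : Neat G L r d u α) : Neat G L r d w α := by
  obtain ⟨K, h1, h2, h3, h4⟩ := hu
  exact ⟨K, mem_of_reach h3 h h1, h2, h3, h4⟩

end Comp

theorem ev_congr {I A : Type*} {E : (I → A) → Prop} {ω ω' : I → A} (h : E ω ↔ E ω') :
    ev E ω = ev E ω' := by
  unfold ev
  congr 1
  exact propext h

theorem dem_nonneg (k m : ℕ) : 0 ≤ dem k m := by
  unfold dem
  split_ifs with h
  · have h1 : ((2 * m : ℕ) : ℝ) < k := by exact_mod_cast h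
    push_cast at h1
    have h2 : (0 : ℝ) ≤ m := Nat.cast_nonneg _
    exact div_nonneg h2 (by linarith)
  · exact le_rfl

/-- Every factor of the exponential moment is at most one. -/
theorem factor_le {r S k m : ℕ} {Λ : ℝ} (hr : 0 < r) (hS : 0 < S) (hΛ : 0 ≤ Λ)
    (h1 : 4 * r * S * Λ ≤ k) (h2 : Real.exp (-Λ) ≤ 1 / (2 * (r * S) + 1)) :
    Real.exp (-Λ) + (Real.exp (Λ * dem k m) - Real.exp (-Λ)) *
      (1 - 1 / ((r : ℝ) * S)) ^ m ≤ 1 := by
  have hr' : (1 : ℝ) ≤ r := by exact_mod_cast hr
  have hS' : (1 : ℝ) ≤ S := by exact_mod_cast hS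
  have hrS : (1 : ℝ) ≤ (r : ℝ) * S := by nlinarith
  have hrS0 : (0 : ℝ) < (r : ℝ) * S := by linarith
  have hu0 : (0 : ℝ) ≤ 1 - 1 / ((r : ℝ) * S) := by
    have : (1 : ℝ) / ((r : ℝ) * S) ≤ 1 := by
      rw [div_le_one hrS0]
      exact hrS
    linarith
  have hu1 : 1 - 1 / ((r : ℝ) * S) ≤ 1 := by
    have : (0 : ℝ) ≤ 1 / ((r : ℝ) * S) := by positivity
    linarith
  have hup : (1 - 1 / ((r : ℝ) * S)) ^ m ≤ 1 := pow_le_one₀ hu0 hu1
  have hup0 : 0 ≤ (1 - 1 / ((r : ℝ) * S)) ^ m := pow_nonneg hu0 m
  have hexp1 : Real.exp (-Λ) ≤ 1 := by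
    rw [Real.exp_le_one_iff]
    linarith
  unfold dem
  split_ifs with h
  · rcases Nat.eq_zero_or_pos m with rfl | hm
    · simp
    · have hm' : (1 : ℝ) ≤ m := by exact_mod_cast hm
      have h3 : ((2 * m : ℕ) : ℝ) < k := by exact_mod_cast h
      push_cast at h3
      have hk0 : (0 : ℝ) < k := by linarith
      have h4 : (m : ℝ) / ((k : ℝ) - m) ≤ 2 * m / k := by
        rw [div_le_div_iff₀ (by linarith) hk0]
        nlinarith
      have h5 : Λ * ((m : ℝ) / ((k : ℝ) - m)) ≤ m / (2 * ((r : ℝ) * S)) := by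
        refine (mul_le_mul_of_nonneg_left h4 hΛ).trans ?_
        rw [mul_div_assoc', div_le_div_iff₀ hk0 (by positivity)]
        have h6 : Λ * (2 * m) * (2 * ((r : ℝ) * S)) = m * (4 * r * S * Λ) := by ring
        rw [h6]
        exact mul_le_mul_of_nonneg_left h1 (by linarith)
      have h6 : (1 - 1 / ((r : ℝ) * S)) ^ m ≤ Real.exp (-(m / ((r : ℝ) * S))) := by
        have h7 : 1 - 1 / ((r : ℝ) * S) ≤ Real.exp (-(1 / ((r : ℝ) * S))) := by
          have := Real.add_one_le_exp (-(1 / ((r : ℝ) * S)))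
          linarith
        refine (pow_le_pow_left₀ hu0 h7 m).trans (le_of_eq ?_)
        rw [← Real.exp_nat_mul]
        congr 1
        ring
      have h7 : Real.exp (Λ * ((m : ℝ) / ((k : ℝ) - m))) * (1 - 1 / ((r : ℝ) * S)) ^ m ≤
          Real.exp (-(1 / (2 * ((r : ℝ) * S)))) := by
        calc Real.exp (Λ * ((m : ℝ) / ((k : ℝ) - m))) * (1 - 1 / ((r : ℝ) * S)) ^ m
            ≤ Real.exp (m / (2 * ((r : ℝ) * S))) * Real.exp (-(m / ((r : ℝ) * S))) :=
              mul_le_mul (Real.exp_le_exp.2 h5) h6 hup0 (Real.exp_pos _).le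
          _ = Real.exp (-(m / (2 * ((r : ℝ) * S)))) := by
              rw [← Real.exp_add]
              congr 1
              field_simp
              ring
          _ ≤ Real.exp (-(1 / (2 * ((r : ℝ) * S)))) := by
              apply Real.exp_le_exp.2
              have : (1 : ℝ) / (2 * ((r : ℝ) * S)) ≤ m / (2 * ((r : ℝ) * S)) := by gcongr
              linarith
      have h8 : Real.exp (-(1 / (2 * ((r : ℝ) * S)))) ≤ 1 - 1 / (2 * ((r : ℝ) * S) + 1) := by
        have h9 : 1 + 1 / (2 * ((r : ℝ) * S)) ≤ Real.exp (1 / (2 * ((r : ℝ) * S))) := by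
          have := Real.add_one_le_exp (1 / (2 * ((r : ℝ) * S)))
          linarith
        have h10 : (1 : ℝ) - 1 / (2 * ((r : ℝ) * S) + 1) = 1 / (1 + 1 / (2 * ((r : ℝ) * S))) := by
          field_simp
          ring
        rw [h10, Real.exp_neg, ← one_div]
        exact one_div_le_one_div_of_le (by positivity) h9
      have h9 : 0 ≤ Real.exp (-Λ) * (1 - 1 / ((r : ℝ) * S)) ^ m :=
        mul_nonneg (Real.exp_pos _).le hup0
      have h10 : Real.exp (-Λ) ≤ 1 / (2 * ((r : ℝ) * S) + 1) := by
        simpa using h2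
      nlinarith
  · rw [mul_zero, Real.exp_zero]
    nlinarith

theorem main_exact {V C : Type} [Fintype V] {G : SimpleGraph V} {L : V → Finset C}
    {d S r B : ℕ} {Λ : ℝ} (hS : 0 < S) (hr : 0 < r) (hB : 0 < B) (hdeg : ColourDegreeLE G L d)
    (hcard : ∀ v, (L v).card = d + 2)
    (hty : ∀ v, ∀ α ∈ L v, Light G L S B v α ∨ Neat G L r d v α)
    (hΛ : 0 ≤ Λ) (h1 : 4 * r * S * Λ ≤ ((d + 2 : ℕ) : ℝ))
    (h2 : Real.exp (-Λ) ≤ 1 / (2 * (r * S) + 1))
    (h3 : Real.exp (-Λ) ≤ 1 / (4 * ((2 * B * (d + 2) ^ 5 : ℕ) : ℝ))) :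
    ListColourable G L := by
  classical
  set lt : V → Finset C := fun v => (L v).filter fun α => Light G L S B v α with hlt
  have hltL : ∀ v, lt v ⊆ L v := fun v => Finset.filter_subset _ _
  have hltm : ∀ v α, α ∈ lt v ↔ α ∈ L v ∧ Light G L S B v α := fun v α => Finset.mem_filter
  -- the data of the light components
  have hdata : ∀ p : V × C, ∃ K : Finset V, ∃ c : V → Fin S, Light G L S B p.1 p.2 →
      p.1 ∈ K ∧ (∀ u ∈ K, ∀ w, G.Adj u w → p.2 ∈ L w → w ∈ K) ∧ K.card ≤ B ∧
      ∀ u ∈ K, ∀ w ∈ K, G.Adj u w → c u ≠ c w := by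
    intro p
    by_cases h : Light G L S B p.1 p.2
    · obtain ⟨K, h5, -, h7, h8, c, h9⟩ := h
      refine ⟨univ.filter (· ∈ K), c, fun _ => ⟨by simpa using h5, ?_, ?_, ?_⟩⟩
      · intro u hu w huw hw
        simp only [Finset.mem_filter, Finset.mem_univ, true_and] at hu ⊢
        exact h7 u hu w huw hw
      · rw [← Set.ncard_coe_finset]
        refine le_trans (le_of_eq ?_) h8
        congr 1
        ext u
        simp
      · intro u hu w hw huw
        simp only [Finset.mem_filter, Finset.mem_univ, true_and] at hu hw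
        exact h9 u hu w hw huw
    · exact ⟨∅, fun _ => ⟨0, hS⟩, fun h' => absurd h' h⟩
  choose Kp colp hKp using hdata
  set cr : V → C → V × C := fun v α => (rep G L v α, α) with hcr
  have hcrL : ∀ v, ∀ α ∈ lt v, Light G L S B (cr v α).1 (cr v α).2 := fun v α hα =>
    light_reach (rep_reach v α).symm ((hltm v α).1 hα).2
  have hKv : ∀ v, ∀ α ∈ lt v, v ∈ Kp (cr v α) := by
    intro v α hα
    have h5 := hKp (cr v α) (hcrL v α hα)
    exact mem_of_reach (K := {u | u ∈ Kp (cr v α)}) (fun u hu w => h5.2.1 u hu w)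
      (rep_reach v α) h5.1
  have hinj : ∀ v, Function.Injective (cr v) := fun v α α' h => (Prod.ext_iff.1 h).2
  -- the coordinates of a vertex
  set P : V → Finset (V × C) := fun v => (lt v).image (cr v) with hP
  have hPcard : ∀ v, (P v).card = (lt v).card := fun v =>
    Finset.card_image_of_injective _ (hinj v)
  have hPl : ∀ v, ∀ p ∈ P v, Light G L S B p.1 p.2 ∧ v ∈ Kp p ∧ ∃ α ∈ lt v, cr v α = p := by
    intro v p hp
    obtain ⟨α, hα, rfl⟩ := Finset.mem_image.1 hp
    exact ⟨hcrL v α hα, hKv v α hα, α, hα, rfl⟩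
  -- the data of the neat components
  have hnd : ∀ p : V × C, ∃ K : Set V, ∃ E : V → V → Finset V,
      Neat G L r d p.1 p.2 → p.1 ∈ K ∧ (∀ u ∈ K, p.2 ∈ L u) ∧
        (∀ u ∈ K, ∀ w, G.Adj u w → p.2 ∈ L w → w ∈ K) ∧
        (∀ x y, (E x y).card ≤ d + 1 ∧ (∀ u ∈ E x y, p.2 ∈ L u ∧ (G.Adj x u ∨ G.Adj y u)) ∧
          ∀ I : Finset V, (∀ u ∈ I, u ∈ E x y) → (∀ u ∈ I, ∀ w ∈ I, ¬ G.Adj u w) →
            I.card ≤ r) ∧
        ∀ W : Set V, W ⊆ K → W.Nonempty → ∃ x ∈ W, ∃ l : List V, l.Nodup ∧
          (∀ y, y ∈ l ↔ y ∈ W ∧ G.Adj x y) ∧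
          ∀ y t, (y :: t) <:+ l → ∀ u ∈ W, (u ∈ y :: t ∨ G.Adj y u) → u ∈ E x y := by
    intro p
    by_cases h : Neat G L r d p.1 p.2
    · obtain ⟨K, h5, h6, h7, E, h8, h9⟩ := h
      refine ⟨K, fun x y => univ.filter fun u => u ∈ E x y ∧ p.2 ∈ L u ∧ (G.Adj x u ∨ G.Adj y u),
        fun _ => ⟨h5, h6, h7, ?_, ?_⟩⟩
      · intro x y
        refine ⟨?_, ?_, ?_⟩
        · rw [← Set.ncard_coe_finset]
          refine le_trans (Set.ncard_le_ncard ?_ (Set.toFinite _)) (h8 x y).1
          intro u hu
          rw [Finset.mem_coe, Finset.mem_filter] at hu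
          exact hu.2.1
        · intro u hu
          rw [Finset.mem_filter] at hu
          exact hu.2.2
        · intro I hI hind
          exact (h8 x y).2 I (fun u hu => (Finset.mem_filter.1 (hI u hu)).2.1) hind
      · intro W hW hWne
        obtain ⟨x, hx, l, hlnd, hl, hE⟩ := h9 W hW hWne
        refine ⟨x, hx, l, hlnd, hl, fun y t hyt u hu hu' => ?_⟩
        rw [Finset.mem_filter]
        refine ⟨Finset.mem_univ _, hE y t hyt ⟨hu, hu'⟩, h6 u (hW hu), ?_⟩
        rcases hu' with h10 | h10
        · exact Or.inl ((hl u).1 (hyt.subset h10)).2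
        · exact Or.inr h10
    · exact ⟨∅, fun _ _ => ∅, fun h' => absurd h' h⟩
  choose Kn E hKn using hnd
  set Q : V → V → C → Finset V := fun x y α => univ.filter fun u =>
    (Neat G L r d y α ∧ G.Adj x y ∧ α ∈ L x) ∧ u ∈ E (cr y α) x y with hQ
  have hQm : ∀ x y α u, u ∈ Q x y α ↔ (Neat G L r d y α ∧ G.Adj x y ∧ α ∈ L x) ∧
      u ∈ E (cr y α) x y := by
    intro x y α u
    rw [hQ]
    simp only [Finset.mem_filter, Finset.mem_univ, true_and]
  have hneatL : ∀ y α, Neat G L r d y α → α ∈ L y := by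
    rintro y α ⟨K, h5, h6, -⟩
    exact h6 y h5
  have hnr : ∀ y α, Neat G L r d y α → Neat G L r d (cr y α).1 (cr y α).2 := fun y α h =>
    neat_reach (rep_reach y α).symm h
  -- the neighbourhoods
  have hdeg' : ∀ y α, α ∈ L y → (univ.filter fun u => G.Adj y u ∧ α ∈ L u).card ≤ d := by
    intro y α hα
    have h8 := hdeg y α hα
    rw [← Set.ncard_coe_finset]
    refine le_trans (le_of_eq ?_) h8
    congr 1
    ext u
    simp
  have hQcard : ∀ x y α, (Q x y α).card ≤ d + 2 := by
    intro x y α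
    by_cases h : (Q x y α).Nonempty
    · obtain ⟨u0, hu0⟩ := h
      have hN := ((hQm x y α u0).1 hu0).1.1
      have h5 : Q x y α ⊆ E (cr y α) x y := fun u hu => ((hQm x y α u).1 hu).2
      have h6 := Finset.card_le_card h5
      have h7 := ((hKn (cr y α) (hnr y α hN)).2.2.2.1 x y).1
      omega
    · rw [Finset.not_nonempty_iff_eq_empty] at h
      rw [h]
      simp
  -- the events
  let U : V → (V × C → Fin S) → Prop := fun v ω => ∀ p ∈ P v, ω p ≠ colp p v
  let dep : V ⊕ (V × V × C) → Finset (V × C) := Sum.elim P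
    (fun t => (Q t.1 t.2.1 t.2.2).biUnion P)
  let Bad : V ⊕ (V × V × C) → (V × C → Fin S) → Prop := Sum.elim
    (fun v ω => d + 2 ≤ 2 * (lt v).card ∧ U v ω)
    (fun t ω => 1 < ∑ u ∈ Q t.1 t.2.1 t.2.2, (dem (d + 2) (lt u).card *
      ev (fun ω => ∀ p ∈ P u, ω p ≠ colp p u) ω -
      (1 - ev (fun ω => ∀ p ∈ P u, ω p ≠ colp p u) ω)))
  let F : Finset (V ⊕ (V × V × C)) := (univ.image Sum.inl) ∪
    ((univ ×ˢ univ ×ˢ univ.biUnion L).image Sum.inr)
  let nb : V ⊕ (V × V × C) → Finset (V ⊕ (V × V × C)) := fun e =>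
    F.filter fun e' => ¬ Disjoint (dep e') (dep e)
  let l : List (V × C) := (univ ×ˢ univ.biUnion L).toList
  have hlnd : l.Nodup := Finset.nodup_toList _
  have hlm : ∀ v, ∀ p ∈ P v, p ∈ l := by
    intro v p hp
    obtain ⟨α, hα, rfl⟩ := Finset.mem_image.1 hp
    rw [Finset.mem_toList, Finset.mem_product]
    exact ⟨Finset.mem_univ _, Finset.mem_biUnion.2 ⟨v, Finset.mem_univ _, hltL v hα⟩⟩
  have hUup : ∀ v p, p ∉ P v → ∀ ω a, (U v (Function.update ω p a) ↔ U v ω) := by
    intro v p hp ω a
    refine forall₂_congr fun p' hp' => ?_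
    have hne : p' ≠ p := fun h => hp (h ▸ hp')
    rw [Function.update_of_ne hne]
  set D : ℕ := 2 * B * (d + 2) ^ 5 with hD
  have hDpos : 0 < D := by positivity
  have hDr : (0 : ℝ) < (D : ℝ) := by exact_mod_cast hDpos
  have hS' : (1 : ℝ) ≤ S := by exact_mod_cast hS
  have hr' : (1 : ℝ) ≤ r := by exact_mod_cast hr
  obtain ⟨ω, hω⟩ := local_lemma (unif (V × C) hS) l (fun _ => ⟨0, hS⟩) Bad
    (fun e => (dep e : Set (V × C))) nb (by
      -- dependence on few coordinates
      rintro (v | ⟨x, y, α⟩) p hp ω a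
      · apply ev_congr
        exact and_congr_right fun _ => hUup v p (fun h => hp (Finset.mem_coe.2 h)) ω a
      · apply ev_congr
        have h5 : ∀ u ∈ Q x y α, ev (fun ω => ∀ p ∈ P u, ω p ≠ colp p u)
            (Function.update ω p a) = ev (fun ω => ∀ p ∈ P u, ω p ≠ colp p u) ω := by
          intro u hu
          apply ev_congr
          refine hUup u p (fun h => hp (Finset.mem_coe.2 ?_)) ω a
          exact Finset.mem_biUnion.2 ⟨u, hu, h⟩
        show (1 < ∑ u ∈ Q x y α, _) ↔ (1 < ∑ u ∈ Q x y α, _)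
        rw [Finset.sum_congr rfl fun u hu => by rw [h5 u hu]]) (by
      -- the neighbours
      intro e e' he'
      rw [Finset.disjoint_coe]
      by_contra hcon
      have h5 : e' ∈ F := by
        rcases e' with v | ⟨x, y, α⟩
        · exact Finset.mem_union_left _ (Finset.mem_image_of_mem _ (Finset.mem_univ _))
        · rw [Finset.not_disjoint_iff] at hcon
          obtain ⟨p, hp, -⟩ := hcon
          obtain ⟨u, hu, -⟩ := Finset.mem_biUnion.1 hp
          have h6 := (hQm x y α u).1 hu
          refine Finset.mem_union_right _ (Finset.mem_image_of_mem _ ?_)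
          rw [Finset.mem_product, Finset.mem_product]
          exact ⟨Finset.mem_univ _, Finset.mem_univ _,
            Finset.mem_biUnion.2 ⟨x, Finset.mem_univ _, h6.1.2.2⟩⟩
      exact he' (Finset.mem_filter.2 ⟨h5, hcon⟩)) D (by
      -- the number of the neighbours
      intro e
      let nbh : C → V → Finset V := fun α u => univ.filter fun y => G.Adj u y ∧ α ∈ L y
      let Evs : V × C → Finset (V ⊕ (V × V × C)) := fun p => (Kp p).image Sum.inl ∪
        (Kp p).biUnion fun u => (L u).biUnion fun α =>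
          ((nbh α u).biUnion fun x => (nbh α x).image
            fun y => Sum.inr (x, y, α)) ∪
          ((nbh α u).biUnion fun y => (nbh α y).image
            fun x => Sum.inr (x, y, α))
      have h5 : nb e ⊆ (dep e).biUnion Evs := by
        intro e' he'
        obtain ⟨h6, h7⟩ := Finset.mem_filter.1 he'
        rw [Finset.not_disjoint_iff] at h7
        obtain ⟨p, hp', hp⟩ := h7
        refine Finset.mem_biUnion.2 ⟨p, hp, ?_⟩
        rcases e' with v | ⟨x, y, α⟩
        · exact Finset.mem_union_left _ (Finset.mem_image_of_mem _ (hPl v p hp').2.1)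
        · obtain ⟨u, hu, hpu⟩ := Finset.mem_biUnion.1 hp'
          obtain ⟨⟨hN, hxy, hαx⟩, huE⟩ := (hQm x y α u).1 hu
          have h8 := ((hKn (cr y α) (hnr y α hN)).2.2.2.1 x y).2.1 u huE
          have hαy := hneatL y α hN
          refine Finset.mem_union_right _ (Finset.mem_biUnion.2 ⟨u, (hPl u p hpu).2.1, ?_⟩)
          refine Finset.mem_biUnion.2 ⟨α, h8.1, ?_⟩
          rcases h8.2 with h9 | h9
          · refine Finset.mem_union_left _ (Finset.mem_biUnion.2 ⟨x, ?_, ?_⟩)
            · exact Finset.mem_filter.2 ⟨Finset.mem_univ _, h9.symm, hαx⟩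
            · exact Finset.mem_image.2 ⟨y, Finset.mem_filter.2 ⟨Finset.mem_univ _, hxy, hαy⟩, rfl⟩
          · refine Finset.mem_union_right _ (Finset.mem_biUnion.2 ⟨y, ?_, ?_⟩)
            · exact Finset.mem_filter.2 ⟨Finset.mem_univ _, h9.symm, hαy⟩
            · exact Finset.mem_image.2
                ⟨x, Finset.mem_filter.2 ⟨Finset.mem_univ _, hxy.symm, hαx⟩, rfl⟩
      have hPc : ∀ v, (P v).card ≤ d + 2 := fun v =>
        Finset.card_image_le.trans ((Finset.card_le_card (hltL v)).trans (hcard v).le)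
      have h6 : ∀ p ∈ dep e, Light G L S B p.1 p.2 := by
        intro p hp
        rcases e with v | ⟨x, y, α⟩
        · exact (hPl v p hp).1
        · obtain ⟨u, hu, hpu⟩ := Finset.mem_biUnion.1 hp
          exact (hPl u p hpu).1
      have h6a : ∀ u α, α ∈ L u → (nbh α u).card ≤ d := fun u α hα => hdeg' u α hα
      have h6b : ∀ u α, ∀ x ∈ nbh α u, α ∈ L x := fun u α x hx => (Finset.mem_filter.1 hx).2.2
      have h7 : ∀ p ∈ dep e, (Evs p).card ≤ B + B * ((d + 2) * (d * d + d * d)) := by
        intro p hp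
        have h8 := (hKp p (h6 p hp)).2.2.1
        refine (Finset.card_union_le _ _).trans (add_le_add (Finset.card_image_le.trans h8) ?_)
        refine (Finset.card_biUnion_le_card_mul _ _ ((d + 2) * (d * d + d * d))
          fun u _ => ?_).trans (Nat.mul_le_mul_right _ h8)
        refine (Finset.card_biUnion_le_card_mul _ _ (d * d + d * d) fun α hα => ?_).trans
          (le_of_eq (by rw [hcard]))
        refine (Finset.card_union_le _ _).trans (add_le_add ?_ ?_)
        · refine (Finset.card_biUnion_le_card_mul _ _ d fun x hx => ?_).trans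
            (Nat.mul_le_mul_right _ (h6a u α hα))
          exact Finset.card_image_le.trans (h6a x α (h6b u α x hx))
        · refine (Finset.card_biUnion_le_card_mul _ _ d fun x hx => ?_).trans
            (Nat.mul_le_mul_right _ (h6a u α hα))
          exact Finset.card_image_le.trans (h6a x α (h6b u α x hx))
      have h8 : (dep e).card ≤ (d + 2) * (d + 2) := by
        rcases e with v | ⟨x, y, α⟩
        · exact (hPc v).trans (Nat.le_mul_of_pos_left _ (by omega))
        · exact (Finset.card_biUnion_le_card_mul _ _ (d + 2) fun u _ => hPc u).trans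
            (Nat.mul_le_mul_right _ (hQcard x y α))
      calc (nb e).card ≤ ((dep e).biUnion Evs).card := Finset.card_le_card h5
        _ ≤ (dep e).card * (B + B * ((d + 2) * (d * d + d * d))) :=
          Finset.card_biUnion_le_card_mul _ _ _ h7
        _ ≤ (d + 2) * (d + 2) * (B + B * ((d + 2) * (d * d + d * d))) :=
          Nat.mul_le_mul_right _ h8
        _ = B * ((d + 2) * (d + 2) * (1 + (d + 2) * (2 * (d * d)))) := by ring
        _ ≤ B * ((d + 2) * (d + 2) * (2 * ((d + 2) * ((d + 2) * (d + 2))))) := by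
          refine Nat.mul_le_mul_left _ (Nat.mul_le_mul_left _ ?_)
          have h9 : d * d + 4 ≤ (d + 2) * (d + 2) := by nlinarith
          have h10 : (d + 2) * (d * d + 4) ≤ (d + 2) * ((d + 2) * (d + 2)) :=
            Nat.mul_le_mul_left _ h9
          nlinarith
        _ = 2 * B * (d + 2) ^ 5 := by ring) (1 / (4 * (D : ℝ))) (by
      -- the probabilities
      rintro (v | ⟨x, y, α⟩)
      · by_cases h : d + 2 ≤ 2 * (lt v).card
        · have h5 : ev (Bad (Sum.inl v)) = ev fun ω : V × C → Fin S =>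
              ∀ u ∈ ({v} : Finset V), ∀ p ∈ P u, ω p ≠ colp p u := by
            funext ω
            unfold ev
            congr 1
            refine propext ⟨fun h' u hu => ?_, fun h' => ⟨h, h' v (Finset.mem_singleton_self v)⟩⟩
            rw [Finset.mem_singleton] at hu
            subst hu
            exact h'.2
          rw [h5]
          refine (av_uncov hS one_pos hlnd {v} P (fun u _ => hlm u) (fun u p => colp p u) (by
            intro i a
            refine (Finset.card_filter_le _ _).trans ?_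
            rw [Finset.card_singleton]) _).trans ?_
          rw [Finset.sum_singleton, hPcard, Nat.cast_one, one_mul]
          refine le_trans ?_ h3
          have h6 : (0 : ℝ) ≤ 1 - 1 / S := by
            have : (1 : ℝ) / S ≤ 1 := by
              rw [div_le_one (by linarith)]
              exact hS'
            linarith
          have h7 : (1 : ℝ) - 1 / S ≤ Real.exp (-(1 / S)) := by
            have := Real.add_one_le_exp (-(1 / (S : ℝ)))
            linarith
          calc (1 - 1 / (S : ℝ)) ^ (lt v).card ≤ Real.exp (-(1 / S)) ^ (lt v).card :=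
                pow_le_pow_left₀ h6 h7 _
            _ = Real.exp (-(((lt v).card : ℝ) / S)) := by
                rw [← Real.exp_nat_mul]
                congr 1
                ring
            _ ≤ Real.exp (-Λ) := by
                apply Real.exp_le_exp.2
                have h8 : ((d + 2 : ℕ) : ℝ) ≤ 2 * ((lt v).card : ℝ) := by exact_mod_cast h
                have h9 : Λ ≤ ((lt v).card : ℝ) / S := by
                  rw [le_div_iff₀ (by linarith)]
                  have h10 : 0 ≤ (S : ℝ) * Λ := mul_nonneg (by linarith) hΛ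
                  have h11 : (S : ℝ) * Λ ≤ r * (S * Λ) := by nlinarith
                  nlinarith
                linarith
        · have h5 : ev (Bad (Sum.inl v)) = fun _ : V × C → Fin S => (0 : ℝ) := by
            funext ω
            exact ev_false (fun h' => h h'.1)
          rw [h5, PW.av_const]
          positivity
      · refine (av_moment hS hr hlnd (Q x y α) P (fun u _ => hlm u) (fun u p => colp p u) ?_ _
          (fun u => dem (d + 2) (lt u).card) (fun u => dem_nonneg _ _) hΛ ?_).trans h3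
        · intro p a
          by_cases hne : (Q x y α).Nonempty
          swap
          · rw [Finset.not_nonempty_iff_eq_empty] at hne
            rw [hne]
            simp
          obtain ⟨u0, hu0⟩ := hne
          have hN := ((hQm x y α u0).1 hu0).1.1
          refine ((hKn (cr y α) (hnr y α hN)).2.2.2.1 x y).2.2 _ ?_ ?_
          · intro u hu
            exact ((hQm x y α u).1 (Finset.mem_filter.1 hu).1).2
          · intro u hu w hw hadj
            obtain ⟨-, hpu, hcu⟩ := Finset.mem_filter.1 hu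
            obtain ⟨-, hpw, hcw⟩ := Finset.mem_filter.1 hw
            exact (hKp p (hPl u p hpu).1).2.2.2 u (hPl u p hpu).2.1 w (hPl w p hpw).2.1 hadj
              (hcu.trans hcw.symm)
        · intro u
          rw [hPcard]
          exact factor_le hr hS hΛ h1 h2) (by
      rw [show 4 * (1 / (4 * (D : ℝ))) * D = 1 by field_simp]) (by
      rw [show 4 * (1 / (4 * (D : ℝ))) = 1 / D by field_simp, div_le_one hDr]
      exact_mod_cast hDpos) F
  -- the colouring
  let cov : V → Prop := fun v => ¬ U v ω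
  have hcov : ∀ v, cov v → ∃ α ∈ lt v, ω (cr v α) = colp (cr v α) v := by
    intro v hv
    by_contra hcon
    push Not at hcon
    apply hv
    intro p hp
    obtain ⟨α, hα, rfl⟩ := Finset.mem_image.1 hp
    exact hcon α hα
  have hg : ∀ v, ∃ α, cov v → α ∈ lt v ∧ ω (cr v α) = colp (cr v α) v := by
    intro v
    by_cases h : cov v
    · obtain ⟨α, hα⟩ := hcov v h
      exact ⟨α, fun _ => hα⟩
    · have h5 : (L v).Nonempty := by
        rw [← Finset.card_pos, hcard]
        omega
      exact ⟨h5.choose, fun h' => absurd h' h⟩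
  choose g hg using hg
  refine colourable_of_cov hcard lt hltL ?_ g cov (fun v hv => (hg v hv).1) ?_ ?_ ?_
  · intro u w α huw hw hu
    have h5 := (hltm u α).1 hu
    refine (hltm w α).2 ⟨hw, light_reach ?_ h5.2⟩
    exact SimpleGraph.Adj.reachable (show (cls G L α).Adj u w from ⟨huw, h5.1, hw⟩)
  · intro u w hu hw huw heq
    obtain ⟨h5, h6⟩ := hg u hu
    obtain ⟨h7, h8⟩ := hg w hw
    have hr : cr u (g u) = cr w (g w) := by
      rw [← heq]
      have : rep G L u (g u) = rep G L w (g u) := rep_eq (SimpleGraph.Adj.reachable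
        (show (cls G L (g u)).Adj u w from ⟨huw, hltL u h5, by rw [heq]; exact hltL w h7⟩))
      rw [hcr]
      simp only
      rw [this]
    have h9 := hKv u (g u) h5
    have h10 := hKv w (g w) h7
    rw [← hr] at h10 h8
    exact (hKp _ (hcrL u (g u) h5)).2.2.2 u h9 w h10 huw (h6.symm.trans h8)
  · intro v hv
    by_contra hcon
    push Not at hcon
    exact hω (Sum.inl v) (Finset.mem_union_left _
      (Finset.mem_image_of_mem _ (Finset.mem_univ _))) ⟨hcon, not_not.1 hv⟩
  · intro v α hα hnl
    have hN : Neat G L r d v α := (hty v α hα).resolve_left fun h => hnl ((hltm v α).2 ⟨hα, h⟩)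
    have hcv := hKn (cr v α) (hnr v α hN)
    have hvK : v ∈ Kn (cr v α) := mem_of_reach hcv.2.2.1 (rep_reach v α) hcv.1
    have hsub : ∀ u, (cls G L α).Reachable v u → u ∈ Kn (cr v α) := fun u hu =>
      mem_of_reach hcv.2.2.1 hu hvK
    refine ⟨{u | (cls G L α).Reachable v u}, SimpleGraph.Reachable.refl v,
      fun u hu => hcv.2.1 u (hsub u hu), ?_, E (cr v α), ?_, ?_⟩
    · intro u hu w huw hw
      exact SimpleGraph.Reachable.trans hu (SimpleGraph.Adj.reachable
        (show (cls G L α).Adj u w from ⟨huw, hcv.2.1 u (hsub u hu), hw⟩))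
    · intro x hx y hy hxy
      refine ⟨(hcv.2.2.2.1 x y).1, ?_⟩
      have hαx := hcv.2.1 x (hsub x hx)
      have hNy : Neat G L r d y α := neat_reach hy hN
      have hcy : cr y α = cr v α := by
        rw [hcr]
        simp only
        rw [rep_eq hy]
      have hQQ : Q x y α = E (cr v α) x y := by
        ext u
        rw [hQm x y α u, hcy]
        exact ⟨fun h => h.2, fun h => ⟨⟨hNy, hxy, hαx⟩, h⟩⟩
      have h5 := hω (Sum.inr (x, y, α)) (Finset.mem_union_right _ (Finset.mem_image_of_mem _ (by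
        rw [Finset.mem_product, Finset.mem_product]
        exact ⟨Finset.mem_univ _, Finset.mem_univ _,
          Finset.mem_biUnion.2 ⟨x, Finset.mem_univ _, hαx⟩⟩)))
      have h6 : ∑ u ∈ Q x y α, (dem (d + 2) (lt u).card *
          ev (fun ω => ∀ p ∈ P u, ω p ≠ colp p u) ω -
          (1 - ev (fun ω => ∀ p ∈ P u, ω p ≠ colp p u) ω)) ≤ 1 := not_lt.1 h5
      rw [← hQQ]
      refine le_trans (Finset.sum_le_sum fun u _ => ?_) h6
      by_cases hu : cov u
      · rw [if_pos hu, ev_false (E := fun ω : V × C → Fin S => ∀ p ∈ P u, ω p ≠ colp p u) hu]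
        simp
      · rw [if_neg hu, ev_true (E := fun ω : V × C → Fin S => ∀ p ∈ P u, ω p ≠ colp p u)
          (not_not.1 hu)]
        simp
    · intro W hW hWne
      exact hcv.2.2.2.2 W (fun u hu => hsub u (hW hu)) hWne

end Pool.Agent.Helper48.LB
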