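import Pool.Agent.Helper96.NB.LLL

/-!
# Two estimates on a product space with uniform coordinates
-/

namespace Pool.Agent.Helper48.LB

open Finset Pool.Agent.Helper96.NB Pool.Agent.Helper96.NB.PW

variable {I : Type*} [DecidableEq I]

/-- The average of a function of one coordinate. -/
theorem av_single {A : Type*} (P : PW I A) {l : List I} (hl : l.Nodup) {i : I} (hi : i ∈ l)
    (g : A → ℝ) (ω₀ : I → A) :
    P.av l (fun ω => g (ω i)) ω₀ = ∑ a ∈ P.supp i, P.w i a * g a := by
  rw [P.av_perm (List.perm_cons_erase hi), P.av_cons]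
  have h1 : P.av (l.erase i) (fun ω => g (ω i)) = fun ω => g (ω i) := by
    funext ω
    apply P.av_ind
    intro j hj ω' a
    have hne : i ≠ j := by
      rintro rfl
      exact (List.Nodup.not_mem_erase hl) hj
    show g (Function.update ω' j a i) = g (ω' i)
    rw [Function.update_of_ne hne]
  rw [h1]
  simp [PW.avg]

/-- The average of a product of functions of single coordinates. -/
theorem av_prod {A : Type*} (P : PW I A) {l : List I} (hl : l.Nodup) (s : Finset I)
    (hs : ∀ i ∈ s, i ∈ l) (g : I → A → ℝ) (ω₀ : I → A) :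
    P.av l (fun ω => ∏ i ∈ s, g i (ω i)) ω₀ =
      ∏ i ∈ s, ∑ a ∈ P.supp i, P.w i a * g i a := by
  induction s using Finset.induction_on with
  | empty => simpa using P.av_const l 1 ω₀
  | insert i s hi ih =>
    have e : (fun ω : I → A => ∏ j ∈ insert i s, g j (ω j)) =
        fun ω => g i (ω i) * ∏ j ∈ s, g j (ω j) := by
      funext ω
      rw [Finset.prod_insert hi]
    rw [e, Finset.prod_insert hi, P.av_mul, av_single P hl (hs i (Finset.mem_insert_self _ _)),
      ih fun j hj => hs j (Finset.mem_insert_of_mem hj)]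
    intro j _
    by_cases hij : i = j
    · subst hij
      right
      intro ω a
      refine Finset.prod_congr rfl fun j hj => ?_
      have hne : j ≠ i := fun h => hi (h ▸ hj)
      rw [Function.update_of_ne hne]
    · left
      intro ω a
      simp only
      rw [Function.update_of_ne hij]

/-- Uniform weights. -/
noncomputable def unif (I : Type*) {S : ℕ} (hS : 0 < S) : PW I (Fin S) where
  supp _ := univ
  w _ _ := 1 / (S : ℝ)
  nonneg _ _ := by positivity
  total _ := by
    rw [Finset.sum_const, Finset.card_univ, Fintype.card_fin, nsmul_eq_mul]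
    have : (S : ℝ) ≠ 0 := by exact_mod_cast hS.ne'
    field_simp

theorem sum_ne {S : ℕ} (hS : 0 < S) (c : Fin S) :
    ∑ a : Fin S, 1 / (S : ℝ) * (if a = c then (0 : ℝ) else 1) = 1 - 1 / (S : ℝ) := by
  have h1 : ∀ a : Fin S, 1 / (S : ℝ) * (if a = c then (0 : ℝ) else 1) =
      1 / (S : ℝ) - (if a = c then 1 / (S : ℝ) else 0) := by
    intro a
    split_ifs <;> ring
  rw [Finset.sum_congr rfl fun a _ => h1 a, Finset.sum_sub_distrib, Finset.sum_const,
    Finset.card_univ, Fintype.card_fin, nsmul_eq_mul, Finset.sum_ite_eq']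
  have : (S : ℝ) ≠ 0 := by exact_mod_cast hS.ne'
  simp only [Finset.mem_univ, if_true]
  field_simp

/-- One coordinate: the probability that it avoids the values of `h` vertices, at most `r` of
which have the same value. -/
theorem sum_avoid_le {V : Type*} {S r : ℕ} (hS : 0 < S) (hr : 0 < r) (Q : Finset V)
    (col : V → Fin S) (hcol : ∀ a, (Q.filter fun v => col v = a).card ≤ r) :
    ∑ a : Fin S, 1 / (S : ℝ) * (if ∀ v ∈ Q, a ≠ col v then (1 : ℝ) else 0) ≤
      (1 - 1 / ((r : ℝ) * S)) ^ Q.card := by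
  classical
  have hS' : (0 : ℝ) < S := by exact_mod_cast hS
  have hr' : (0 : ℝ) < r := by exact_mod_cast hr
  have h1 : ∑ a : Fin S, 1 / (S : ℝ) * (if ∀ v ∈ Q, a ≠ col v then (1 : ℝ) else 0) =
      ((S : ℝ) - ((Q.image col).card : ℝ)) / S := by
    rw [← Finset.mul_sum, Finset.sum_boole, one_div, inv_mul_eq_div]
    congr 1
    have h2 : (univ.filter fun a : Fin S => ∀ v ∈ Q, a ≠ col v) = univ \ Q.image col := by
      ext a
      rw [Finset.mem_filter, Finset.mem_sdiff, Finset.mem_image]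
      constructor
      · rintro ⟨-, h⟩
        exact ⟨Finset.mem_univ _, fun ⟨v, hv, hva⟩ => h v hv hva.symm⟩
      · rintro ⟨-, h⟩
        exact ⟨Finset.mem_univ _, fun v hv hva => h ⟨v, hv, hva.symm⟩⟩
    rw [h2, Finset.card_sdiff_of_subset (Finset.subset_univ _), Finset.card_univ,
      Fintype.card_fin, Nat.cast_sub]
    calc (Q.image col).card ≤ (univ : Finset (Fin S)).card :=
          Finset.card_le_card (Finset.subset_univ _)
      _ = S := by rw [Finset.card_univ, Fintype.card_fin]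
  have h2 : Q.card ≤ r * (Q.image col).card :=
    Finset.card_le_mul_card_image Q r fun a _ => hcol a
  have h2' : (Q.card : ℝ) ≤ r * ((Q.image col).card : ℝ) := by exact_mod_cast h2
  rw [h1]
  have h3 : ((S : ℝ) - ((Q.image col).card : ℝ)) / S ≤ 1 + (Q.card : ℝ) * -(1 / ((r : ℝ) * S)) := by
    have h4 : (Q.card : ℝ) * (1 / ((r : ℝ) * S)) ≤ ((Q.image col).card : ℝ) / S := by
      rw [mul_one_div, div_le_div_iff₀ (by positivity) hS']
      nlinarith
    have h5 : ((S : ℝ) - ((Q.image col).card : ℝ)) / S = 1 - ((Q.image col).card : ℝ) / S := by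
      field_simp
    rw [h5]
    linarith
  refine h3.trans ?_
  have h5 : (-2 : ℝ) ≤ -(1 / ((r : ℝ) * S)) := by
    have h7 : (1 : ℝ) ≤ r := by exact_mod_cast hr
    have h8 : (1 : ℝ) ≤ S := by exact_mod_cast hS
    have : (1 : ℝ) / ((r : ℝ) * S) ≤ 1 := by
      rw [div_le_one (by positivity)]
      nlinarith
    linarith
  have h6 := one_add_mul_le_pow h5 Q.card
  refine h6.trans (le_of_eq ?_)
  ring

/-- The probability that no vertex of `T` is covered. -/
theorem av_uncov {V : Type*} {S r : ℕ} (hS : 0 < S) (hr : 0 < r) {l : List I} (hl : l.Nodup)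
    (T : Finset V) (lt : V → Finset I) (hs : ∀ v ∈ T, ∀ i ∈ lt v, i ∈ l) (col : V → I → Fin S)
    (hcol : ∀ i a, (T.filter fun v => i ∈ lt v ∧ col v i = a).card ≤ r) (ω₀ : I → Fin S) :
    (unif I hS).av l (ev fun ω => ∀ v ∈ T, ∀ i ∈ lt v, ω i ≠ col v i) ω₀ ≤
      (1 - 1 / ((r : ℝ) * S)) ^ (∑ v ∈ T, (lt v).card) := by
  have e : (ev fun ω : I → Fin S => ∀ v ∈ T, ∀ i ∈ lt v, ω i ≠ col v i) =
      fun ω => ∏ i ∈ T.biUnion lt,
        (if ∀ v ∈ T.filter (fun v => i ∈ lt v), ω i ≠ col v i then (1 : ℝ) else 0) := by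
    funext ω
    by_cases h : ∀ v ∈ T, ∀ i ∈ lt v, ω i ≠ col v i
    · rw [ev_true (E := fun ω : I → Fin S => ∀ v ∈ T, ∀ i ∈ lt v, ω i ≠ col v i) h]
      refine (Finset.prod_eq_one fun i _ => ?_).symm
      rw [if_pos]
      intro v hv
      rw [Finset.mem_filter] at hv
      exact h v hv.1 i hv.2
    · rw [ev_false (E := fun ω : I → Fin S => ∀ v ∈ T, ∀ i ∈ lt v, ω i ≠ col v i) h]
      push Not at h
      obtain ⟨v, hv, i, hi, h1⟩ := h
      refine (Finset.prod_eq_zero (i := i) (Finset.mem_biUnion.2 ⟨v, hv, hi⟩) ?_).symm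
      rw [if_neg]
      intro h2
      exact h2 v (Finset.mem_filter.2 ⟨hv, hi⟩) h1
  rw [e]
  refine (av_prod (unif I hS) hl (T.biUnion lt) (by
    intro i hi
    obtain ⟨v, hv, hi⟩ := Finset.mem_biUnion.1 hi
    exact hs v hv i hi) (fun i (a : Fin S) =>
      if ∀ v ∈ T.filter (fun v => i ∈ lt v), a ≠ col v i then (1 : ℝ) else 0) ω₀).le.trans ?_
  have h1 : ∑ v ∈ T, (lt v).card = ∑ i ∈ T.biUnion lt, (T.filter fun v => i ∈ lt v).card := by
    have h2 : ∀ v ∈ T, (lt v).card = ∑ i ∈ T.biUnion lt, if i ∈ lt v then 1 else 0 := by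
      intro v hv
      rw [← Finset.card_filter]
      congr 1
      ext i
      rw [Finset.mem_filter]
      exact ⟨fun h => ⟨Finset.mem_biUnion.2 ⟨v, hv, h⟩, h⟩, fun h => h.2⟩
    rw [Finset.sum_congr rfl h2, Finset.sum_comm]
    refine Finset.sum_congr rfl fun i _ => ?_
    rw [Finset.card_filter]
  rw [h1, ← Finset.prod_pow_eq_pow_sum]
  refine Finset.prod_le_prod (fun i _ => Finset.sum_nonneg fun a _ => ?_) fun i _ => ?_
  · refine mul_nonneg ((unif I hS).nonneg _ _) ?_
    split_ifs <;> norm_num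
  · refine sum_avoid_le hS hr (T.filter fun v => i ∈ lt v) (fun v => col v i) ?_
    intro a
    rw [Finset.filter_filter]
    exact hcol i a

/-- The exponential moment: it is unlikely that the surplus of `Q` is negative. -/
theorem av_moment {V : Type*} {S r : ℕ} (hS : 0 < S) (hr : 0 < r) {l : List I} (hl : l.Nodup)
    (Q : Finset V) (lt : V → Finset I) (hs : ∀ v ∈ Q, ∀ i ∈ lt v, i ∈ l) (col : V → I → Fin S)
    (hcol : ∀ i a, (Q.filter fun v => i ∈ lt v ∧ col v i = a).card ≤ r) (ω₀ : I → Fin S)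
    (ε : V → ℝ) (hε : ∀ v, 0 ≤ ε v) {θ : ℝ} (hθ : 0 ≤ θ)
    (hfac : ∀ v, Real.exp (-θ) + (Real.exp (θ * ε v) - Real.exp (-θ)) *
      (1 - 1 / ((r : ℝ) * S)) ^ (lt v).card ≤ 1) :
    (unif I hS).av l (ev fun ω => 1 < ∑ v ∈ Q, (ε v * ev (fun ω => ∀ i ∈ lt v, ω i ≠ col v i) ω -
      (1 - ev (fun ω => ∀ i ∈ lt v, ω i ≠ col v i) ω))) ω₀ ≤ Real.exp (-θ) := by
  classical
  set U : V → (I → Fin S) → ℝ := fun v => ev fun ω => ∀ i ∈ lt v, ω i ≠ col v i with hU
  have hb : ∀ v, 0 ≤ Real.exp (θ * ε v) - Real.exp (-θ) := by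
    intro v
    have : Real.exp (-θ) ≤ Real.exp (θ * ε v) := by
      apply Real.exp_le_exp.2
      have := mul_nonneg hθ (hε v)
      linarith
    linarith
  have hu0 : (0 : ℝ) ≤ 1 - 1 / ((r : ℝ) * S) := by
    have h7 : (1 : ℝ) ≤ r := by exact_mod_cast hr
    have h8 : (1 : ℝ) ≤ S := by exact_mod_cast hS
    have : (1 : ℝ) / ((r : ℝ) * S) ≤ 1 := by
      rw [div_le_one (by positivity)]
      nlinarith
    linarith
  have h1 := (unif I hS).markov l (E := fun ω => 1 < ∑ v ∈ Q, (ε v * U v ω - (1 - U v ω)))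
    (f := fun ω => ∏ v ∈ Q, ((Real.exp (θ * ε v) - Real.exp (-θ)) * U v ω + Real.exp (-θ)))
    (c := Real.exp θ) (Real.exp_pos _)
    (fun ω => Finset.prod_nonneg fun v _ => add_nonneg (mul_nonneg (hb v) (ev_nonneg _ _))
      (Real.exp_pos _).le) (by
      intro ω hω
      have h2 : ∏ v ∈ Q, ((Real.exp (θ * ε v) - Real.exp (-θ)) * U v ω + Real.exp (-θ)) =
          Real.exp (θ * ∑ v ∈ Q, (ε v * U v ω - (1 - U v ω))) := by
        rw [Finset.mul_sum, Real.exp_sum]
        refine Finset.prod_congr rfl fun v _ => ?_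
        by_cases h : ∀ i ∈ lt v, ω i ≠ col v i
        · have h3 : U v ω = 1 := ev_true (E := fun ω : I → Fin S => ∀ i ∈ lt v, ω i ≠ col v i) h
          rw [h3]
          ring_nf
        · have h3 : U v ω = 0 := ev_false (E := fun ω : I → Fin S => ∀ i ∈ lt v, ω i ≠ col v i) h
          rw [h3]
          ring_nf
      rw [h2]
      apply Real.exp_le_exp.2
      nlinarith) ω₀
  refine h1.trans ?_
  have h2 : (unif I hS).av l (fun ω => ∏ v ∈ Q,
      ((Real.exp (θ * ε v) - Real.exp (-θ)) * U v ω + Real.exp (-θ))) ω₀ ≤ 1 := by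
    have e : (fun ω => ∏ v ∈ Q, ((Real.exp (θ * ε v) - Real.exp (-θ)) * U v ω + Real.exp (-θ))) =
        fun ω => ∑ T ∈ Q.powerset, ((∏ v ∈ T, (Real.exp (θ * ε v) - Real.exp (-θ))) *
          ∏ v ∈ Q \ T, Real.exp (-θ)) * ev (fun ω => ∀ v ∈ T, ∀ i ∈ lt v, ω i ≠ col v i) ω := by
      funext ω
      rw [Finset.prod_add]
      refine Finset.sum_congr rfl fun T _ => ?_
      rw [Finset.prod_mul_distrib]
      have h3 : ∏ v ∈ T, U v ω = ev (fun ω => ∀ v ∈ T, ∀ i ∈ lt v, ω i ≠ col v i) ω := by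
        by_cases h : ∀ v ∈ T, ∀ i ∈ lt v, ω i ≠ col v i
        · rw [ev_true (E := fun ω : I → Fin S => ∀ v ∈ T, ∀ i ∈ lt v, ω i ≠ col v i) h]
          exact Finset.prod_eq_one fun v hv =>
            ev_true (E := fun ω : I → Fin S => ∀ i ∈ lt v, ω i ≠ col v i) (h v hv)
        · rw [ev_false (E := fun ω : I → Fin S => ∀ v ∈ T, ∀ i ∈ lt v, ω i ≠ col v i) h]
          push Not at h
          obtain ⟨v, hv, i, hi, h4⟩ := h
          refine Finset.prod_eq_zero hv (ev_false
            (E := fun ω : I → Fin S => ∀ i ∈ lt v, ω i ≠ col v i) ?_)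
          intro h5
          exact h5 i hi h4
      rw [h3]
      ring
    rw [e, PW.av_sum]
    calc ∑ T ∈ Q.powerset, (unif I hS).av l (fun ω =>
          ((∏ v ∈ T, (Real.exp (θ * ε v) - Real.exp (-θ))) * ∏ v ∈ Q \ T, Real.exp (-θ)) *
            ev (fun ω => ∀ v ∈ T, ∀ i ∈ lt v, ω i ≠ col v i) ω) ω₀
        ≤ ∑ T ∈ Q.powerset, (∏ v ∈ T, (Real.exp (θ * ε v) - Real.exp (-θ)) *
            (1 - 1 / ((r : ℝ) * S)) ^ (lt v).card) * ∏ v ∈ Q \ T, Real.exp (-θ) := by
          refine Finset.sum_le_sum fun T hT => ?_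
          rw [Finset.mem_powerset] at hT
          rw [PW.av_smul, Finset.prod_mul_distrib, Finset.prod_pow_eq_pow_sum]
          have h3 := av_uncov hS hr hl T lt (fun v hv => hs v (hT hv)) col (fun i a =>
            (Finset.card_le_card (Finset.filter_subset_filter _ hT)).trans (hcol i a)) ω₀
          have h4 : 0 ≤ (∏ v ∈ T, (Real.exp (θ * ε v) - Real.exp (-θ))) *
              ∏ v ∈ Q \ T, Real.exp (-θ) :=
            mul_nonneg (Finset.prod_nonneg fun v _ => hb v)
              (Finset.prod_nonneg fun v _ => (Real.exp_pos _).le)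
          refine (mul_le_mul_of_nonneg_left h3 h4).trans (le_of_eq ?_)
          ring
      _ = ∏ v ∈ Q, ((Real.exp (θ * ε v) - Real.exp (-θ)) *
            (1 - 1 / ((r : ℝ) * S)) ^ (lt v).card + Real.exp (-θ)) := by
          rw [Finset.prod_add]
      _ ≤ 1 := by
          refine Finset.prod_le_one (fun v _ => ?_) fun v _ => ?_
          · exact add_nonneg (mul_nonneg (hb v) (pow_nonneg hu0 _)) (Real.exp_pos _).le
          · have := hfac v
            linarith
  have h3 : Real.exp (-θ) = 1 / Real.exp θ := by rw [Real.exp_neg, one_div]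
  calc _ ≤ 1 / Real.exp θ := div_le_div_of_nonneg_right h2 (Real.exp_pos _).le
    _ = Real.exp (-θ) := h3.symm

end Pool.Agent.Helper48.LB
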