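import Pool.Agent.Helper48.LB.Upper

/-!
# Complete and complete bipartite components: `d + 1` colours do not suffice

For `d ≥ 3` there are `4 d` blocks `(x, s, i)` of `d + 1` vertices, all with lists of size `d + 1`;
the maximum colour degree is `d` and every colour class is complete or complete bipartite.
-/

namespace Pool.Agent.Helper48.LB.Two

open Finset Pool.Agent.Helper48.HX

/-- The vertices. -/
abbrev Vx (d : ℕ) := Bool × Bool × Fin d × Fin (d + 1)

/-- The last colour of a vertex: a hub, a variable or the port. -/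
def ext (d : ℕ) (v : Vx d) : (Bool × Bool × ℕ) ⊕ (Bool ⊕ Unit) :=
  if v.2.2.2.1 < v.2.2.1.1 then Sum.inl (v.1, v.2.1, v.2.2.1.1)
  else if v.2.2.2.1 = v.2.2.1.1 then Sum.inr (Sum.inl v.1)
  else if v.2.2.1.1 + 1 = d then Sum.inr (Sum.inr ())
  else Sum.inl (v.1, v.2.1, v.2.2.1.1 + 1)

/-- The colours. -/
abbrev Col := (Bool × Bool × ℕ × ℕ) ⊕ ((Bool × Bool × ℕ) ⊕ (Bool ⊕ Unit))

/-- The lists. -/
def lst (d : ℕ) (v : Vx d) : Finset Col :=
  insert (Sum.inr (ext d v)) ((range d).image fun c => Sum.inl (v.1, v.2.1, v.2.2.1.1, c))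

/-- The graph. -/
def gr (d : ℕ) : SimpleGraph (Vx d) where
  Adj u w := u ≠ w ∧ ((u.1 = w.1 ∧ u.2.1 = w.2.1 ∧ u.2.2.1 = w.2.2.1) ∨
    (ext d u = ext d w ∧ ∀ x, ext d u = Sum.inr (Sum.inl x) → u.2.1 ≠ w.2.1))
  symm := ⟨fun u w h => ⟨h.1.symm, h.2.imp (fun h => ⟨h.1.symm, h.2.1.symm, h.2.2.symm⟩)
    fun h => ⟨h.1.symm, fun x hx => (h.2 x (h.1.trans hx)).symm⟩⟩⟩
  loopless := ⟨fun _ h => h.1 rfl⟩

theorem mem_inl {d : ℕ} {v : Vx d} {x s : Bool} {i c : ℕ} :
    Sum.inl (x, s, i, c) ∈ lst d v ↔ v.1 = x ∧ v.2.1 = s ∧ v.2.2.1.1 = i ∧ c < d := by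
  unfold lst
  rw [Finset.mem_insert, Finset.mem_image]
  constructor
  · rintro (h | ⟨c', hc', h⟩)
    · exact absurd h (by simp)
    · simp only [Sum.inl.injEq, Prod.mk.injEq] at h
      obtain ⟨h1, h2, h3, rfl⟩ := h
      exact ⟨h1, h2, h3, Finset.mem_range.1 hc'⟩
  · rintro ⟨rfl, rfl, rfl, h⟩
    exact Or.inr ⟨c, Finset.mem_range.2 h, rfl⟩

theorem mem_inr {d : ℕ} {v : Vx d} {e : (Bool × Bool × ℕ) ⊕ (Bool ⊕ Unit)} :
    Sum.inr e ∈ lst d v ↔ ext d v = e := by
  unfold lst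
  rw [Finset.mem_insert, Finset.mem_image]
  constructor
  · rintro (h | ⟨c', hc', h⟩)
    · exact (Sum.inr.inj h).symm
    · exact absurd h (by simp)
  · rintro rfl
    exact Or.inl rfl

theorem card_lst (d : ℕ) (v : Vx d) : (lst d v).card = d + 1 := by
  unfold lst
  rw [Finset.card_insert_of_notMem, Finset.card_image_of_injective, Finset.card_range]
  · intro c c' h
    simpa using h
  · rw [Finset.mem_image]
    rintro ⟨c, -, h⟩
    exact absurd h (by simp)

theorem ext_hub {d : ℕ} {v : Vx d} {x s : Bool} {i : ℕ} (h : ext d v = Sum.inl (x, s, i)) :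
    v.1 = x ∧ v.2.1 = s ∧ ((v.2.2.2.1 < i ∧ v.2.2.1.1 = i) ∨
      (i ≤ v.2.2.2.1 ∧ v.2.2.1.1 + 1 = i)) := by
  unfold ext at h
  split_ifs at h with h1 h2 h3
  · simp only [Sum.inl.injEq, Prod.mk.injEq] at h
    obtain ⟨h4, h5, h6⟩ := h
    exact ⟨h4, h5, Or.inl ⟨by omega, h6⟩⟩
  · simp only [Sum.inl.injEq, Prod.mk.injEq] at h
    obtain ⟨h4, h5, h6⟩ := h
    exact ⟨h4, h5, Or.inr ⟨by omega, h6⟩⟩

theorem ext_var {d : ℕ} {v : Vx d} {x : Bool} (h : ext d v = Sum.inr (Sum.inl x)) :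
    v.1 = x ∧ v.2.2.2.1 = v.2.2.1.1 := by
  unfold ext at h
  split_ifs at h with h1 h2 h3
  · simp only [Sum.inr.injEq, Sum.inl.injEq] at h
    exact ⟨h, h2⟩
  · simp at h

theorem ext_port {d : ℕ} {v : Vx d} (h : ext d v = Sum.inr (Sum.inr ())) :
    v.2.2.1.1 + 1 = d ∧ v.2.2.2.1 = d := by
  unfold ext at h
  split_ifs at h with h1 h2 h3
  · simp at h
  · refine ⟨h3, ?_⟩
    have := v.2.2.2.2
    omega

/-- Two vertices of the class of a variable. -/
theorem adj_var {d : ℕ} {u w : Vx d} {x : Bool} (hu : ext d u = Sum.inr (Sum.inl x))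
    (hw : ext d w = Sum.inr (Sum.inl x)) : (gr d).Adj u w ↔ u.2.1 ≠ w.2.1 := by
  constructor
  · rintro ⟨hne, ⟨h1, h2, h3⟩ | ⟨h1, h2⟩⟩
    · exfalso
      apply hne
      have h4 := (ext_var hu).2
      have h5 := (ext_var hw).2
      refine Prod.ext h1 (Prod.ext h2 (Prod.ext h3 (Fin.ext ?_)))
      rw [h4, h5, h3]
    · exact h2 x hu
  · intro h
    exact ⟨fun h' => h (by rw [h']), Or.inr ⟨hu.trans hw.symm, fun _ _ => h⟩⟩

theorem complete_or {d : ℕ} (α : Col) :
    (∀ u w : Vx d, α ∈ lst d u → α ∈ lst d w → u ≠ w → (gr d).Adj u w) ∨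
    ∃ x, α = Sum.inr (Sum.inr (Sum.inl x)) := by
  rcases α with ⟨x, s, i, c⟩ | ⟨x, s, i⟩ | x | ⟨⟩
  · left
    intro u w hu hw hne
    obtain ⟨h1, h2, h3, -⟩ := mem_inl.1 hu
    obtain ⟨h4, h5, h6, -⟩ := mem_inl.1 hw
    exact ⟨hne, Or.inl ⟨h1.trans h4.symm, h2.trans h5.symm, Fin.ext (h3.trans h6.symm)⟩⟩
  · left
    intro u w hu hw hne
    have h1 := mem_inr.1 hu
    have h2 := mem_inr.1 hw
    exact ⟨hne, Or.inr ⟨h1.trans h2.symm, fun y hy => absurd (h1.symm.trans hy) (by simp)⟩⟩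
  · exact Or.inr ⟨x, rfl⟩
  · left
    intro u w hu hw hne
    have h1 := mem_inr.1 hu
    have h2 := mem_inr.1 hw
    exact ⟨hne, Or.inr ⟨h1.trans h2.symm, fun y hy => absurd (h1.symm.trans hy) (by simp)⟩⟩

theorem degree_lst {d : ℕ} (hd : 3 ≤ d) : ColourDegreeLE (gr d) (lst d) d := by
  intro v α hα
  rcases α with ⟨x, s, i, c⟩ | ⟨x, s, i⟩ | x | ⟨⟩
  · obtain ⟨h1, h2, h3, -⟩ := mem_inl.1 hα
    have h4 : ((univ : Finset (Fin (d + 1))).erase v.2.2.2).card = d := by
      rw [Finset.card_erase_of_mem (Finset.mem_univ _), Finset.card_univ, Fintype.card_fin]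
      rfl
    refine le_trans ?_ h4.le
    rw [← Set.ncard_coe_finset]
    refine Set.ncard_le_ncard_of_injOn (fun w => w.2.2.2) ?_ ?_ (Set.toFinite _)
    · rintro w ⟨hadj, hw⟩
      obtain ⟨h5, h6, h7, -⟩ := mem_inl.1 hw
      rw [Finset.mem_coe, Finset.mem_erase]
      refine ⟨fun h => hadj.1 ?_, Finset.mem_univ _⟩
      exact Prod.ext (h1.trans h5.symm) (Prod.ext (h2.trans h6.symm)
        (Prod.ext (Fin.ext (h3.trans h7.symm)) h.symm))
    · rintro w ⟨-, hw⟩ w' ⟨-, hw'⟩ h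
      obtain ⟨h5, h6, h7, -⟩ := mem_inl.1 hw
      obtain ⟨h8, h9, h10, -⟩ := mem_inl.1 hw'
      exact Prod.ext (h5.trans h8.symm) (Prod.ext (h6.trans h9.symm)
        (Prod.ext (Fin.ext (h7.trans h10.symm)) h))
  · have h1 := ext_hub (mem_inr.1 hα)
    have h4 : ((univ : Finset (Fin (d + 1))).erase v.2.2.2).card = d := by
      rw [Finset.card_erase_of_mem (Finset.mem_univ _), Finset.card_univ, Fintype.card_fin]
      rfl
    refine le_trans ?_ h4.le
    rw [← Set.ncard_coe_finset]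
    refine Set.ncard_le_ncard_of_injOn (fun w => w.2.2.2) ?_ ?_ (Set.toFinite _)
    · rintro w ⟨hadj, hw⟩
      have h2 := ext_hub (mem_inr.1 hw)
      rw [Finset.mem_coe, Finset.mem_erase]
      refine ⟨fun h => hadj.1 ?_, Finset.mem_univ _⟩
      have h' : w.2.2.2.1 = v.2.2.2.1 := congrArg Fin.val h
      exact Prod.ext (h1.1.trans h2.1.symm) (Prod.ext (h1.2.1.trans h2.2.1.symm)
        (Prod.ext (Fin.ext (by omega)) h.symm))
    · rintro w ⟨-, hw⟩ w' ⟨-, hw'⟩ h
      have h2 := ext_hub (mem_inr.1 hw)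
      have h3 := ext_hub (mem_inr.1 hw')
      have h' : w.2.2.2.1 = w'.2.2.2.1 := congrArg Fin.val h
      exact Prod.ext (h2.1.trans h3.1.symm) (Prod.ext (h2.2.1.trans h3.2.1.symm)
        (Prod.ext (Fin.ext (by omega)) h))
  · have h1 := mem_inr.1 hα
    have h4 : (univ : Finset (Fin d)).card = d := by
      rw [Finset.card_univ, Fintype.card_fin]
    refine le_trans ?_ h4.le
    rw [← Set.ncard_coe_finset]
    refine Set.ncard_le_ncard_of_injOn (fun w => w.2.2.1) (fun w _ => by simp) ?_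
      (Set.toFinite _)
    rintro w ⟨hadj, hw⟩ w' ⟨hadj', hw'⟩ h
    have h2 := mem_inr.1 hw
    have h3 := mem_inr.1 hw'
    have h5 := (adj_var h1 h2).1 hadj
    have h6 := (adj_var h1 h3).1 hadj'
    have h7 := ext_var h2
    have h8 := ext_var h3
    have h9 : w.2.1 = w'.2.1 := by
      revert h5 h6
      cases v.2.1 <;> cases w.2.1 <;> cases w'.2.1 <;> simp
    have h' : w.2.2.1.1 = w'.2.2.1.1 := congrArg Fin.val h
    exact Prod.ext (h7.1.trans h8.1.symm) (Prod.ext h9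
      (Prod.ext h (Fin.ext (by rw [h7.2, h8.2, h']))))
  · have h1 := ext_port (mem_inr.1 hα)
    have h4 : ((univ : Finset (Bool × Bool)).erase (v.1, v.2.1)).card = 3 := by
      rw [Finset.card_erase_of_mem (Finset.mem_univ _)]
      rfl
    refine le_trans (le_trans ?_ h4.le) hd
    rw [← Set.ncard_coe_finset]
    refine Set.ncard_le_ncard_of_injOn (fun w => (w.1, w.2.1)) ?_ ?_ (Set.toFinite _)
    · rintro w ⟨hadj, hw⟩
      have h2 := ext_port (mem_inr.1 hw)
      rw [Finset.mem_coe, Finset.mem_erase]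
      refine ⟨fun h => hadj.1 ?_, Finset.mem_univ _⟩
      simp only [Prod.mk.injEq] at h
      exact Prod.ext h.1.symm (Prod.ext h.2.symm (Prod.ext (Fin.ext (by omega))
        (Fin.ext (by omega))))
    · rintro w ⟨-, hw⟩ w' ⟨-, hw'⟩ h
      have h2 := ext_port (mem_inr.1 hw)
      have h3 := ext_port (mem_inr.1 hw')
      simp only [Prod.mk.injEq] at h
      exact Prod.ext h.1 (Prod.ext h.2 (Prod.ext (Fin.ext (by omega)) (Fin.ext (by omega))))

/-- In each block some vertex has its last colour. -/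
theorem exists_ext {d : ℕ} {c : Vx d → Col} (hc : ∀ v, c v ∈ lst d v)
    (hp : ∀ v w, (gr d).Adj v w → c v ≠ c w) (x s : Bool) (i : Fin d) :
    ∃ j : Fin (d + 1), c (x, s, i, j) = Sum.inr (ext d (x, s, i, j)) := by
  by_contra hcon
  push Not at hcon
  have h1 : ∀ j : Fin (d + 1), ∃ k < d, c (x, s, i, j) = Sum.inl (x, s, i.1, k) := by
    intro j
    have h2 := hc (x, s, i, j)
    unfold lst at h2
    rw [Finset.mem_insert, Finset.mem_image] at h2
    rcases h2 with h2 | ⟨k, hk, h2⟩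
    · exact absurd h2 (hcon j)
    · exact ⟨k, Finset.mem_range.1 hk, h2.symm⟩
  choose k hk hck using h1
  have hinj : Function.Injective fun j => (⟨k j, hk j⟩ : Fin d) := by
    intro j j' h
    by_contra hne
    have h2 : k j = k j' := congrArg Fin.val h
    refine hp (x, s, i, j) (x, s, i, j') ⟨?_, Or.inl ⟨rfl, rfl, rfl⟩⟩ ?_
    · intro h3
      simp only [Prod.mk.injEq, true_and] at h3
      exact hne h3
    · rw [hck j, hck j', h2]
  have := Fintype.card_le_of_injective _ hinj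
  simp at this

/-- If no vertex of `(x, s)` has the colour of the variable, the port is needed. -/
theorem exists_port {d : ℕ} (hd : 0 < d) {c : Vx d → Col} (hc : ∀ v, c v ∈ lst d v)
    (hp : ∀ v w, (gr d).Adj v w → c v ≠ c w) (x s : Bool)
    (hv : ∀ i : Fin d, ∀ j, c (x, s, i, j) ≠ Sum.inr (Sum.inr (Sum.inl x))) :
    ∃ v : Vx d, v.1 = x ∧ v.2.1 = s ∧ c v = Sum.inr (Sum.inr (Sum.inr ())) ∧
      ext d v = Sum.inr (Sum.inr ()) := by
  have key : ∀ n : ℕ, ∀ hn : n < d, ∃ j : Fin (d + 1), n < j.1 ∧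
      c (x, s, ⟨n, hn⟩, j) = Sum.inr (ext d (x, s, ⟨n, hn⟩, j)) := by
    intro n
    induction n with
    | zero =>
      intro hn
      obtain ⟨j, hj⟩ := exists_ext hc hp x s ⟨0, hn⟩
      refine ⟨j, ?_, hj⟩
      by_contra h
      have h1 : ext d (x, s, ⟨0, hn⟩, j) = Sum.inr (Sum.inl x) := by
        unfold ext
        simp only
        rw [if_neg (by omega), if_pos (by omega)]
      rw [h1] at hj
      exact hv _ _ hj
    | succ n ih =>
      intro hn
      obtain ⟨j, hj1, hj2⟩ := ih (by omega)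
      obtain ⟨k, hk⟩ := exists_ext hc hp x s ⟨n + 1, hn⟩
      refine ⟨k, ?_, hk⟩
      by_contra h
      rcases Nat.lt_or_ge k.1 (n + 1) with h1 | h1
      · have h2 : ext d (x, s, ⟨n + 1, hn⟩, k) = Sum.inl (x, s, n + 1) := by
          unfold ext
          simp only
          rw [if_pos h1]
        have h3 : ext d (x, s, ⟨n, by omega⟩, j) = Sum.inl (x, s, n + 1) := by
          unfold ext
          simp only
          rw [if_neg (by omega), if_neg (by omega), if_neg (by omega)]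
        refine hp (x, s, ⟨n + 1, hn⟩, k) (x, s, ⟨n, by omega⟩, j) ⟨?_, Or.inr ⟨h2.trans h3.symm,
          fun y hy => absurd (h2.symm.trans hy) (by simp)⟩⟩ ?_
        · intro h4
          simp only [Prod.mk.injEq, Fin.mk.injEq, true_and] at h4
          omega
        · rw [hk, hj2, h2, h3]
      · have h2 : ext d (x, s, ⟨n + 1, hn⟩, k) = Sum.inr (Sum.inl x) := by
          unfold ext
          simp only
          rw [if_neg (by omega), if_pos (by omega)]
        rw [h2] at hk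
        exact hv _ _ hk
  obtain ⟨j, hj1, hj2⟩ := key (d - 1) (by omega)
  have h1 : ext d (x, s, ⟨d - 1, by omega⟩, j) = Sum.inr (Sum.inr ()) := by
    unfold ext
    simp only
    rw [if_neg (by omega), if_neg (by omega), if_pos (by omega)]
  exact ⟨_, rfl, rfl, hj2.trans (by rw [h1]), h1⟩

theorem not_colourable {d : ℕ} (hd : 0 < d) : ¬ ListColourable (gr d) (lst d) := by
  rintro ⟨c, hc, hp⟩
  have key : ∀ x : Bool, ∃ v : Vx d, v.1 = x ∧ c v = Sum.inr (Sum.inr (Sum.inr ())) ∧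
      ext d v = Sum.inr (Sum.inr ()) := by
    intro x
    by_cases h : ∀ i : Fin d, ∀ j, c (x, true, i, j) ≠ Sum.inr (Sum.inr (Sum.inl x))
    · obtain ⟨v, h1, -, h2, h3⟩ := exists_port hd hc hp x true h
      exact ⟨v, h1, h2, h3⟩
    · push Not at h
      obtain ⟨i, j, hij⟩ := h
      obtain ⟨v, h1, -, h2, h3⟩ := exists_port hd hc hp x false (by
        intro i' j' hij'
        have h4 : ext d (x, true, i, j) = Sum.inr (Sum.inl x) := mem_inr.1 (hij ▸ hc _)
        have h5 : ext d (x, false, i', j') = Sum.inr (Sum.inl x) := mem_inr.1 (hij' ▸ hc _)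
        exact hp _ _ ((adj_var h4 h5).2 (by simp)) (hij.trans hij'.symm))
      exact ⟨v, h1, h2, h3⟩
  obtain ⟨v, hv1, hv2, hv3⟩ := key true
  obtain ⟨w, hw1, hw2, hw3⟩ := key false
  refine hp v w ⟨?_, Or.inr ⟨hv3.trans hw3.symm, fun y hy => absurd (hv3.symm.trans hy)
    (by simp)⟩⟩ (hv2.trans hw2.symm)
  rintro rfl
  rw [hv1] at hw1
  exact absurd hw1 (by simp)

end Pool.Agent.Helper48.LB.Two
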