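import Pool.Agent.Helper48.LB.Main

/-!
# The upper bound `d + 2`
-/

namespace Pool.Agent.Helper48.LB

open Finset Pool.Agent.Helper48.HX

/-- It suffices, whenever the maximum colour degree is at most `d`, that every list `L v` has at
least `k` colours that are light or neat at `v`. -/
def SufficesM (r S B d k : ℕ) : Prop :=
  ∀ (V C : Type) [Fintype V] (G : SimpleGraph V) (L : V → Finset C), ColourDegreeLE G L d →
    (∀ v, k ≤ {α | α ∈ L v ∧ (Light G L S B v α ∨ Neat G L r d v α)}.ncard) → ListColourable G L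

/-- The least sufficient size. -/
noncomputable def fM (r S B d : ℕ) : ℕ := sInf {k | SufficesM r S B d k}

theorem light_mono {V C : Type} [Fintype V] {G : SimpleGraph V} {L L' : V → Finset C} {S B : ℕ}
    (hL : ∀ v, L' v ⊆ L v) {v : V} {α : C} (hα : α ∈ L' v) (h : Light G L S B v α) :
    Light G L' S B v α := by
  obtain ⟨K, h1, h2, h3, h4, c, h5⟩ := h
  refine ⟨{u | u ∈ K ∧ α ∈ L' u}, ⟨h1, hα⟩, fun u hu => hu.2, ?_, ?_, c, ?_⟩
  · intro u hu w huw hw
    exact ⟨h3 u hu.1 w huw (hL w hw), hw⟩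
  · exact (Set.ncard_le_ncard (fun u hu => hu.1) (Set.toFinite _)).trans h4
  · intro u hu w hw huw
    exact h5 u hu.1 w hw.1 huw

theorem neat_mono {V C : Type} {G : SimpleGraph V} {L L' : V → Finset C} {r d : ℕ}
    (hL : ∀ v, L' v ⊆ L v) {v : V} {α : C} (hα : α ∈ L' v) (h : Neat G L r d v α) :
    Neat G L' r d v α := by
  obtain ⟨K, h1, h2, h3, E, h4, h5⟩ := h
  refine ⟨{u | u ∈ K ∧ α ∈ L' u}, ⟨h1, hα⟩, fun u hu => hu.2, ?_, E, h4, ?_⟩
  · intro u hu w huw hw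
    exact ⟨h3 u hu.1 w huw (hL w hw), hw⟩
  · intro W hW hne
    exact h5 W (fun u hu => (hW hu).1) hne

theorem suffices_of_params {S r B d : ℕ} {Λ : ℝ} (hS : 0 < S) (hr : 0 < r) (hB : 0 < B)
    (hΛ : 0 ≤ Λ) (h1 : 4 * r * S * Λ ≤ ((d + 2 : ℕ) : ℝ))
    (h2 : Real.exp (-Λ) ≤ 1 / (2 * (r * S) + 1))
    (h3 : Real.exp (-Λ) ≤ 1 / (4 * ((2 * B * (d + 2) ^ 5 : ℕ) : ℝ))) :
    SufficesM r S B d (d + 2) := by
  classical
  intro V C _ G L hdeg hk
  have hk' : ∀ v, d + 2 ≤ ((L v).filter fun α => Light G L S B v α ∨ Neat G L r d v α).card := by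
    intro v
    refine (hk v).trans (le_of_eq ?_)
    rw [← Set.ncard_coe_finset]
    congr 1
    ext α
    simp
  have hex : ∀ v, ∃ T ⊆ (L v).filter fun α => Light G L S B v α ∨ Neat G L r d v α,
      T.card = d + 2 := fun v => Finset.exists_subset_card_eq (hk' v)
  choose L' hL'' hc' using hex
  have hL' : ∀ v, L' v ⊆ L v := fun v => (hL'' v).trans (Finset.filter_subset _ _)
  have hty : ∀ v, ∀ α ∈ L' v, Light G L S B v α ∨ Neat G L r d v α := fun v α hα =>
    (Finset.mem_filter.1 (hL'' v hα)).2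
  have hdeg' : ColourDegreeLE G L' d := by
    intro v α hα
    refine le_trans (Set.ncard_le_ncard ?_ (Set.toFinite _)) (hdeg v α (hL' v hα))
    rintro w ⟨hw1, hw2⟩
    exact ⟨hw1, hL' w hw2⟩
  obtain ⟨c, hc1, hc2⟩ := main_exact hS hr hB hdeg' hc' (fun v α hα =>
    (hty v α hα).imp (light_mono hL' hα) (neat_mono hL' hα)) hΛ h1 h2 h3
  exact ⟨c, fun v => hL' v (hc1 v), hc2⟩

theorem log_ge {B d : ℕ} (hB : 0 < B) : (5 : ℝ) ≤ Real.log (8 * B * (d + 2) ^ 5) := by
  have hBr : (1 : ℝ) ≤ B := by exact_mod_cast hB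
  have hd0 : (0 : ℝ) ≤ d := Nat.cast_nonneg d
  have harg : (256 : ℝ) ≤ 8 * B * (d + 2) ^ 5 := by
    have h1 : (32 : ℝ) ≤ (d + 2) ^ 5 := by
      calc (32 : ℝ) = 2 ^ 5 := by norm_num
        _ ≤ (d + 2) ^ 5 := pow_le_pow_left₀ (by norm_num) (by linarith) 5
    nlinarith
  have h1 : Real.log 256 = 8 * Real.log 2 := by
    rw [show (256 : ℝ) = 2 ^ 8 by norm_num, Real.log_pow]
    norm_num
  have h2 : Real.log 256 ≤ Real.log (8 * B * (d + 2) ^ 5) := Real.log_le_log (by norm_num) harg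
  have h3 := Real.log_two_gt_d9
  linarith

theorem suffices_of_log {S r B d : ℕ} (hS : 0 < S) (hr : 0 < r) (hB : 0 < B)
    (h : 4 * r * S * Real.log (8 * B * (d + 2) ^ 5) ≤ d + 2) :
    SufficesM r S B d (d + 2) := by
  have hΛ1 := log_ge (d := d) hB
  have hSr : (1 : ℝ) ≤ S := by exact_mod_cast hS
  have hrr : (1 : ℝ) ≤ r := by exact_mod_cast hr
  have hBr : (1 : ℝ) ≤ B := by exact_mod_cast hB
  have hd0 : (0 : ℝ) ≤ d := Nat.cast_nonneg d
  have hrS : (1 : ℝ) ≤ (r : ℝ) * S := by nlinarith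
  have hpos : (0 : ℝ) < 8 * B * (d + 2) ^ 5 := by positivity
  have hexp : Real.exp (-Real.log (8 * B * (d + 2) ^ 5)) = 1 / (8 * B * (d + 2) ^ 5) := by
    rw [Real.exp_neg, Real.exp_log hpos, one_div]
  refine suffices_of_params (Λ := Real.log (8 * B * (d + 2) ^ 5)) hS hr hB (by linarith) ?_ ?_ ?_
  · push_cast
    exact h
  · rw [hexp]
    apply one_div_le_one_div_of_le (by positivity)
    have h1 : 4 * ((r : ℝ) * S) * 5 ≤ d + 2 := by
      refine le_trans ?_ h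
      have : 4 * ((r : ℝ) * S) * 5 ≤ 4 * ((r : ℝ) * S) * Real.log (8 * B * (d + 2) ^ 5) := by
        gcongr
      linarith
    have h2 : (d : ℝ) + 2 ≤ (d + 2) ^ 5 := by
      calc (d : ℝ) + 2 = (d + 2) ^ 1 := by ring
        _ ≤ (d + 2) ^ 5 := pow_le_pow_right₀ (by linarith) (by norm_num)
    have h3 : ((d : ℝ) + 2) ^ 5 ≤ 8 * B * (d + 2) ^ 5 := by
      have : (0 : ℝ) ≤ (d + 2) ^ 5 := by positivity
      nlinarith
    linarith
  · rw [hexp]
    apply le_of_eq
    push_cast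
    ring_nf

/-- Chordal components without induced `K_{1,r+1}` are neat. -/
theorem neat_of_chordal {V C : Type} [Fintype V] {G : SimpleGraph V} {L : V → Finset C} {r d : ℕ}
    (hr : 0 < r) (hdeg : ColourDegreeLE G L d) {v : V} {α : C} (K : Set V) (hv : v ∈ K)
    (hKL : ∀ u ∈ K, α ∈ L u) (hK : ∀ u ∈ K, ∀ w, G.Adj u w → α ∈ L w → w ∈ K)
    (hs : ∀ W : Set V, W ⊆ K → W.Nonempty →
      ∃ x ∈ W, ∀ y ∈ W, ∀ z ∈ W, G.Adj x y → G.Adj x z → y ≠ z → G.Adj y z)
    (hc : ∀ y ∈ K, ∀ I : Finset V, (∀ u ∈ I, u ∈ K ∧ G.Adj y u) →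
      (∀ u ∈ I, ∀ w ∈ I, ¬ G.Adj u w) → I.card ≤ r) : Neat G L r d v α := by
  classical
  refine ⟨K, hv, hKL, hK, fun _ y => {u | y ∈ K ∧ u ∈ K ∧ (u = y ∨ G.Adj y u)}, ?_, ?_⟩
  · intro x y
    beta_reduce
    refine ⟨?_, ?_⟩
    · by_cases hy : y ∈ K
      · have h1 : {u | y ∈ K ∧ u ∈ K ∧ (u = y ∨ G.Adj y u)} ⊆
            insert y {u | G.Adj y u ∧ α ∈ L u} := by
          rintro u ⟨-, hu, h | h⟩
          · exact Or.inl h
          · exact Or.inr ⟨h, hKL u hu⟩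
        refine (Set.ncard_le_ncard h1 (Set.toFinite _)).trans ((Set.ncard_insert_le _ _).trans ?_)
        have := hdeg y α (hKL y hy)
        omega
      · have h1 : {u | y ∈ K ∧ u ∈ K ∧ (u = y ∨ G.Adj y u)} = ∅ := by
          ext u
          simp [hy]
        rw [h1]
        simp
    · intro I hI hind
      by_cases hyI : y ∈ I
      · have h1 : I ⊆ {y} := by
          intro u hu
          rcases (hI u hu).2.2 with h | h
          · exact Finset.mem_singleton.2 h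
          · exact absurd h (hind y hyI u hu)
        have := Finset.card_le_card h1
        rw [Finset.card_singleton] at this
        omega
      · by_cases hne : I.Nonempty
        · obtain ⟨u0, hu0⟩ := hne
          refine hc y (hI u0 hu0).1 I (fun u hu => ⟨(hI u hu).2.1, ?_⟩) hind
          rcases (hI u hu).2.2 with h | h
          · exact absurd (h ▸ hu) hyI
          · exact h
        · rw [Finset.not_nonempty_iff_eq_empty] at hne
          rw [hne]
          simp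
  · intro W hW hne
    obtain ⟨x, hx, hsimp⟩ := hs W hW hne
    refine ⟨x, hx, (univ.filter fun y => y ∈ W ∧ G.Adj x y).toList, Finset.nodup_toList _, ?_, ?_⟩
    · intro y
      simp
    · intro y t hyt
      have hmem : ∀ u ∈ y :: t, u ∈ W ∧ G.Adj x u := fun u hu => by
        have := hyt.subset hu
        simpa using this
      have hy := hmem y (by simp)
      rintro u ⟨hu, h1 | h1⟩
      · refine ⟨hW hy.1, hW hu, ?_⟩
        by_cases huy : u = y
        · exact Or.inl huy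
        · exact Or.inr (hsimp y hy.1 u hu hy.2 (hmem u h1).2 (fun h => huy h.symm))
      · exact ⟨hW hy.1, hW hu, Or.inr h1⟩

/-- Components in which, for every edge `xy`, the set `N(x) ∪ N(y)` has at most `d + 1` vertices
and no `r + 1` independent ones are neat. -/
theorem neat_of_edges {V C : Type} [Fintype V] {G : SimpleGraph V} {L : V → Finset C} {r d : ℕ}
    {v : V} {α : C} (K : Set V) (hv : v ∈ K)
    (hKL : ∀ u ∈ K, α ∈ L u) (hK : ∀ u ∈ K, ∀ w, G.Adj u w → α ∈ L w → w ∈ K)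
    (hc : ∀ x ∈ K, ∀ y ∈ K, G.Adj x y → {u | u ∈ K ∧ (G.Adj x u ∨ G.Adj y u)}.ncard ≤ d + 1 ∧
      ∀ I : Finset V, (∀ u ∈ I, u ∈ K ∧ (G.Adj x u ∨ G.Adj y u)) →
        (∀ u ∈ I, ∀ w ∈ I, ¬ G.Adj u w) → I.card ≤ r) : Neat G L r d v α := by
  classical
  refine ⟨K, hv, hKL, hK, fun x y => {u | (x ∈ K ∧ y ∈ K ∧ G.Adj x y) ∧
    (u ∈ K ∧ (G.Adj x u ∨ G.Adj y u))}, ?_, ?_⟩
  · intro x y
    beta_reduce
    by_cases hy : x ∈ K ∧ y ∈ K ∧ G.Adj x y
    · obtain ⟨h1, hc⟩ := hc x hy.1 y hy.2.1 hy.2.2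
      have h2 : {u | (x ∈ K ∧ y ∈ K ∧ G.Adj x y) ∧ (u ∈ K ∧ (G.Adj x u ∨ G.Adj y u))} =
          {u | u ∈ K ∧ (G.Adj x u ∨ G.Adj y u)} := by
        ext u
        exact and_iff_right hy
      rw [h2]
      exact ⟨h1, fun I hI hind => hc I hI hind⟩
    · have h1 : {u | (x ∈ K ∧ y ∈ K ∧ G.Adj x y) ∧ (u ∈ K ∧ (G.Adj x u ∨ G.Adj y u))} = ∅ := by
        ext u
        simp only [Set.mem_setOf_eq, Set.mem_empty_iff_false, iff_false]
        exact fun h => hy h.1
      rw [h1]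
      refine ⟨by simp, fun I hI _ => ?_⟩
      have h2 : I = ∅ := by
        rw [Finset.eq_empty_iff_forall_notMem]
        exact fun u hu => (hI u hu).elim
      rw [h2]
      simp
  · intro W hW hne
    obtain ⟨x, hx⟩ := hne
    refine ⟨x, hx, (univ.filter fun y => y ∈ W ∧ G.Adj x y).toList, Finset.nodup_toList _, ?_, ?_⟩
    · intro y
      simp
    · intro y t hyt
      have hmem : ∀ u ∈ y :: t, u ∈ W ∧ G.Adj x u := fun u hu => by
        have := hyt.subset hu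
        simpa using this
      have hy := hmem y (by simp)
      rintro u ⟨hu, h1 | h1⟩
      · exact ⟨⟨hW hx, hW hy.1, hy.2⟩, hW hu, Or.inl (hmem u h1).2⟩
      · exact ⟨⟨hW hx, hW hy.1, hy.2⟩, hW hu, Or.inr h1⟩

end Pool.Agent.Helper48.LB
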